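import Mathlib

/-!
# AV: if at each point of a convex set one of finitely many affine functions is large then a convex
combination of them is large on the whole set
-/

set_option autoImplicit false

open scoped BigOperators

namespace AV

theorem minimax {E : Type} [AddCommGroup E] [Module ℝ E] {I : Type} [Fintype I] [Nonempty I]
    (K : Set E) (hK : Convex ℝ K) (f : I → (E →ᵃ[ℝ] ℝ)) (δ : ℝ)
    (h : ∀ p ∈ K, ∃ i, δ < f i p) :
    ∃ a : I → ℝ, (∀ i, 0 ≤ a i) ∧ ∑ i, a i = 1 ∧ ∀ p ∈ K, δ ≤ ∑ i, a i * f i p := by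
  classical
  rcases K.eq_empty_or_nonempty with rfl | ⟨p₀, hp₀⟩
  · obtain ⟨i₀⟩ := ‹Nonempty I›
    refine ⟨fun i => if i = i₀ then 1 else 0, fun i => by dsimp only; split_ifs <;> norm_num, by simp,
      fun p hp => absurd hp (Set.notMem_empty p)⟩
  let s : Set (I → ℝ) := Set.univ.pi fun _ => Set.Iio δ
  let t : Set (I → ℝ) := {u | ∃ p ∈ K, ∀ i, f i p ≤ u i}
  have hs1 : Convex ℝ s := convex_pi fun i _ => convex_Iio δ
  have hs2 : IsOpen s := isOpen_set_pi Set.finite_univ fun i _ => isOpen_Iio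
  have ht : Convex ℝ t := by
    rintro u ⟨p, hp, hu⟩ v ⟨q, hq, hv⟩ a b ha hb hab
    refine ⟨a • p + b • q, hK hp hq ha hb hab, fun i => ?_⟩
    have h1 : f i (a • p + b • q) = a * f i p + b * f i q := by
      have h2 := Convex.combo_affine_apply (f := f i) (x := p) (y := q) hab
      rw [h2]
      simp only [smul_eq_mul]
    rw [h1, Pi.add_apply, Pi.smul_apply, Pi.smul_apply, smul_eq_mul, smul_eq_mul]
    have h3 := mul_le_mul_of_nonneg_left (hu i) ha
    have h4 := mul_le_mul_of_nonneg_left (hv i) hb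
    linarith
  have hst : Disjoint s t := by
    rw [Set.disjoint_left]
    rintro u hu ⟨p, hp, hup⟩
    obtain ⟨i, hi⟩ := h p hp
    have h1 : u i < δ := hu i (Set.mem_univ i)
    have h2 := hup i
    linarith
  obtain ⟨g, c, hg1, hg2⟩ := geometric_hahn_banach_open hs1 hs2 ht hst
  set a : I → ℝ := fun i => g (Pi.single i 1) with ha
  have hga : ∀ u : I → ℝ, g u = ∑ i, a i * u i := by
    intro u
    have h1 : u = ∑ i, u i • (Pi.single i (1 : ℝ) : I → ℝ) := by
      ext j
      simp [Finset.sum_apply, Pi.single_apply]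
    conv_lhs => rw [h1]
    rw [map_sum]
    refine Finset.sum_congr rfl fun i _ => ?_
    rw [map_smul, smul_eq_mul, mul_comm]
  have hmem : ∀ p ∈ K, (fun i => f i p) ∈ t := fun p hp => ⟨p, hp, fun i => le_rfl⟩
  have ha0 : ∀ i, 0 ≤ a i := by
    intro i
    by_contra hcon
    push Not at hcon
    set G : ℝ := g (fun i => f i p₀) with hG
    have h1 : ∀ r : ℝ, 0 ≤ r → c ≤ G + r * a i := by
      intro r hr
      have h2 : (fun i => f i p₀) + r • (Pi.single i (1 : ℝ) : I → ℝ) ∈ t := by
        refine ⟨p₀, hp₀, fun j => ?_⟩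
        rw [Pi.add_apply, Pi.smul_apply, smul_eq_mul]
        have h3 : 0 ≤ r * (Pi.single i (1 : ℝ) : I → ℝ) j := by
          refine mul_nonneg hr ?_
          rw [Pi.single_apply]
          split_ifs <;> norm_num
        linarith
      have h4 := hg2 _ h2
      rw [map_add, map_smul, smul_eq_mul] at h4
      exact h4
    have h2 := h1 ((|G - c| + 1) / (-a i)) (div_nonneg (by positivity) (by linarith))
    have h3 : (|G - c| + 1) / (-a i) * a i = -(|G - c| + 1) := by
      rw [div_mul_eq_mul_div, div_eq_iff (by linarith : -a i ≠ 0)]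
      ring
    rw [h3] at h2
    have h4 := le_abs_self (G - c)
    linarith
  have hc : ∀ r : ℝ, r < δ → r * ∑ i, a i < c := by
    intro r hr
    have h1 : (fun _ => r : I → ℝ) ∈ s := fun i _ => hr
    have h2 := hg1 _ h1
    rw [hga, ← Finset.sum_mul, mul_comm] at h2
    exact h2
  have hA0 : 0 ≤ ∑ i, a i := Finset.sum_nonneg fun i _ => ha0 i
  have hA : 0 < ∑ i, a i := by
    rcases hA0.lt_or_eq with h1 | h1
    · exact h1
    · exfalso
      have h2 := hc (δ - 1) (by linarith)
      rw [← h1, mul_zero] at h2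
      have h3 : ∀ i, a i = 0 := by
        intro i
        exact (Finset.sum_eq_zero_iff_of_nonneg fun i _ => ha0 i).1 h1.symm i (Finset.mem_univ i)
      have h4 := hg2 _ (hmem p₀ hp₀)
      rw [hga] at h4
      simp only [h3, zero_mul, Finset.sum_const_zero] at h4
      linarith
  have hδc : δ * ∑ i, a i ≤ c := by
    by_contra hcon
    push Not at hcon
    have h1 : c / ∑ i, a i < δ := by rwa [div_lt_iff₀ hA]
    have h2 := hc (c / ∑ i, a i) h1
    rw [div_mul_cancel₀ _ hA.ne'] at h2
    exact lt_irrefl _ h2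
  refine ⟨fun i => a i / ∑ j, a j, fun i => div_nonneg (ha0 i) hA0, ?_, fun p hp => ?_⟩
  · rw [← Finset.sum_div, div_self hA.ne']
  · have h1 := hg2 _ (hmem p hp)
    rw [hga] at h1
    have h2 : ∑ i, a i / (∑ j, a j) * f i p = (∑ i, a i * f i p) / ∑ j, a j := by
      rw [Finset.sum_div]
      exact Finset.sum_congr rfl fun i _ => by ring
    rw [h2, le_div_iff₀ hA]
    exact hδc.trans h1

end AV
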