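import Pool.Agent.BB.Numbers6

/-!
# AV: the numbers

The constants `lam`, `b`, `κ` and then `c` are chosen before the error `γ`; `m = n / b` is the number
of variables of the formula, `d₀ = κ m` is the depth of the truncated trees. The proofs are those of
`BB.Numbers6` with `q = m / 3`.
-/

set_option autoImplicit false

open Filter Topology

namespace AV

open LIFT LIFT.h44

/-- `24 ^ m` -/
theorem pow24m {m : ℕ} {q : ℝ} (hq : (m : ℝ) = 3 * q) : (24 : ℝ) ^ m ≤ Real.exp (21 / 2 * q) := by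
  calc (24 : ℝ) ^ m ≤ 32 ^ m := pow_le_pow_left₀ (by norm_num) (by norm_num) m
    _ = 2 ^ (5 * m) := by
        rw [pow_mul]
        norm_num
    _ ≤ Real.exp (7 / 10 * ((5 * m : ℕ) : ℝ)) := two_pow_le _
    _ = Real.exp (21 / 2 * q) := by
        congr 1
        push_cast
        rw [hq]
        ring

theorem sqrt24m {m : ℕ} {q : ℝ} (hq : (m : ℝ) = 3 * q) {r : ℝ} (h0 : 0 ≤ r)
    (hr : r ≤ 2 * Real.exp (q / 2)) :
    Real.sqrt (24 ^ m * r) ≤ 2 * Real.exp (11 / 2 * q) := by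
  rw [Real.sqrt_le_left (by positivity)]
  calc (24 : ℝ) ^ m * r ≤ Real.exp (21 / 2 * q) * (2 * Real.exp (q / 2)) :=
        mul_le_mul (pow24m hq) hr h0 (Real.exp_pos _).le
    _ ≤ (2 * Real.exp (11 / 2 * q)) ^ 2 := by
        have h2 : (2 * Real.exp (11 / 2 * (q : ℝ))) ^ 2 =
            4 * (Real.exp (21 / 2 * q) * Real.exp (q / 2)) := by
          rw [mul_pow, ← Real.exp_nat_mul, ← Real.exp_add]
          norm_num
          ring
        rw [h2]
        have h3 : 0 < Real.exp (21 / 2 * (q : ℝ)) * Real.exp (q / 2) := by positivity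
        linarith

theorem sqrt24n {m : ℕ} {q : ℝ} (hq : (m : ℝ) = 3 * q) :
    Real.sqrt (24 ^ m) ≤ Real.exp (11 / 2 * q) := by
  rw [Real.sqrt_le_left (by positivity)]
  refine (pow24m hq).trans ?_
  rw [← Real.exp_nat_mul]
  apply Real.exp_le_exp.2
  have : (0 : ℝ) ≤ m := Nat.cast_nonneg _
  push_cast
  linarith

/-- everything for one `m` -/
theorem in_m8 (β' : ℝ) (hβ : 0 < β') (b₀ : ℕ) :
    ∃ (lam : ℝ) (b : ℕ), 1 < lam ∧ 0 < b ∧ b₀ ≤ b ∧ lam ^ 8 ≤ 4 * b ∧
      ∀ γ : ℝ, 0 < γ → ∃ m₁ : ℕ, ∀ m : ℕ, m₁ ≤ m → 36 ≤ m ∧ 32 ≤ β' * m ∧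
      ∀ x q : ℝ, (m : ℝ) = 3 * q → x ≤ q / 2 →
      ∀ d k r : ℕ, β' * m ≤ d + 1 → β' * m ≤ k → 0 < r → (r : ℝ) ≤ 2 * Real.exp (q / 2) →
        2 * 2 ^ m / lam ^ (d + 1) * Real.sqrt (24 ^ m) ≤ γ / 2 ∧
        2 * 2 ^ m / lam ^ (d + 1) * Real.sqrt (24 ^ m) ≤ 2 * Real.exp (-(10 * q : ℝ)) ∧
        Real.sqrt (2 ^ m / (b : ℝ) ^ k) ≤ Real.exp (-(10 * q : ℝ)) ∧
        Real.exp (3 * q / 8) * Real.exp (-(q / 2 : ℝ)) + Real.exp (3 * q / 8) *
          (2 * 2 ^ m / lam ^ (d + 1) * Real.sqrt (24 ^ m)) ≤ γ / 2 ∧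
        ∀ v : ℝ, v ≤ 1 / 16 * Real.exp (-(q : ℝ)) →
        2 * (2 * 2 ^ m * (4 * r / Real.exp (-(q / 2 : ℝ))) / lam ^ (d + 1)
            * Real.sqrt (24 ^ m * r))
          + Real.exp (-x) * (2 * 2 ^ m / lam ^ (d + 1) * Real.sqrt (24 ^ m))
          + Real.exp (-x) * Real.exp (-(q / 2 : ℝ)) / 8 + v
          < Real.exp (-x) * Real.exp (-(q / 2 : ℝ)) / 2 := by
  set lam : ℝ := Real.exp (20 / β') with hlam
  have hlam1 : 1 < lam := Real.one_lt_exp_iff.2 (by positivity)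
  obtain ⟨b, hb⟩ := exists_nat_ge (max (max (b₀ : ℝ) (lam ^ 8)) (max (Real.exp (20 / β')) 1))
  have hb1 : (b₀ : ℝ) ≤ b := le_trans (le_trans (le_max_left _ _) (le_max_left _ _)) hb
  have hb2 : lam ^ 8 ≤ b := le_trans (le_trans (le_max_right _ _) (le_max_left _ _)) hb
  have hb3 : Real.exp (20 / β') ≤ b := le_trans (le_trans (le_max_left _ _) (le_max_right _ _)) hb
  have hb4 : (1 : ℝ) ≤ b := le_trans (le_trans (le_max_right _ _) (le_max_right _ _)) hb
  have hb0 : (0 : ℝ) < b := by linarith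
  refine ⟨lam, b, hlam1, by exact_mod_cast hb0, by exact_mod_cast hb1, by linarith, fun γ hγ => ?_⟩
  have hqr : Tendsto (fun m : ℕ => β' * (m : ℝ)) atTop atTop :=
    tendsto_natCast_atTop_atTop.const_mul_atTop hβ
  have hex0 : Tendsto (fun m : ℕ => Real.exp (-(1 / 24 * (m : ℝ)))) atTop (𝓝 0) :=
    Real.tendsto_exp_neg_atTop_nhds_zero.comp
      (tendsto_natCast_atTop_atTop.const_mul_atTop (by norm_num))
  have hT : 0 < γ / 4 := by positivity
  obtain ⟨m₁, hm₁⟩ := ((hex0.eventually (gt_mem_nhds hT)).and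
    ((hqr.eventually_ge_atTop 32).and (eventually_ge_atTop 36))).exists_forall_of_atTop
  refine ⟨m₁, fun m hm => ?_⟩
  obtain ⟨h1, h2, h3⟩ := hm₁ m hm
  refine ⟨h3, h2, ?_⟩
  intro x q hmq hx d k r hd hk hr hr2
  have hq0 : (12 : ℝ) ≤ q := by
    have : (36 : ℝ) ≤ m := by exact_mod_cast h3
    linarith
  have hr0 : (0 : ℝ) < r := by exact_mod_cast hr
  set δ : ℝ := Real.exp (-x) with hδ
  have hδ0 : 0 < δ := Real.exp_pos _
  have hδq : Real.exp (-(q / 2 : ℝ)) ≤ δ := Real.exp_le_exp.2 (by linarith)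
  have g1 : (2 : ℝ) ^ m ≤ Real.exp (21 / 10 * q) := by
    refine (two_pow_le m).trans (Real.exp_le_exp.2 (le_of_eq ?_))
    rw [hmq]
    ring
  have g4 : Real.exp (20 * q) ≤ lam ^ (d + 1) := by
    rw [hlam, ← Real.exp_nat_mul]
    apply Real.exp_le_exp.2
    push_cast
    have g5 : (20 : ℝ) * m = 20 / β' * (β' * m) := by
      field_simp
    have g6 : 20 / β' * (β' * m) ≤ 20 / β' * (d + 1) :=
      mul_le_mul_of_nonneg_left hd (by positivity)
    rw [mul_comm ((d : ℝ) + 1)]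
    linarith
  -- `exp (- 10 q)` is tiny
  have g6 : 64 * Real.exp (-(10 * q : ℝ)) ≤ 1 / 16 * Real.exp (-(q : ℝ)) := by
    have e1 : Real.exp (-(10 * q : ℝ)) = Real.exp (-(q : ℝ)) * Real.exp (-(9 * q : ℝ)) := by
      rw [← Real.exp_add]
      congr 1
      ring
    have e2 : Real.exp (-(9 * q : ℝ)) ≤ Real.exp (-10) := Real.exp_le_exp.2 (by linarith)
    have e3 : (1024 : ℝ) ≤ Real.exp 10 := by
      have e4 : (2 : ℝ) ≤ Real.exp 1 := by
        have := Real.add_one_le_exp (1 : ℝ)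
        linarith
      have e5 : Real.exp 10 = Real.exp 1 ^ 10 := by
        rw [← Real.exp_nat_mul]
        norm_num
      rw [e5]
      calc (1024 : ℝ) = 2 ^ 10 := by norm_num
        _ ≤ Real.exp 1 ^ 10 := pow_le_pow_left₀ (by norm_num) e4 10
    have e4 : Real.exp (-10) ≤ 1 / 1024 := by
      rw [Real.exp_neg, one_div]
      exact inv_anti₀ (by norm_num) e3
    have e5 := mul_le_mul_of_nonneg_left (e2.trans e4) (Real.exp_pos (-(q : ℝ))).le
    rw [e1]
    linarith only [e5]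
  -- the factor without `r`
  have fA : 2 * 2 ^ m / lam ^ (d + 1) * Real.sqrt (24 ^ m)
      ≤ 2 * Real.exp (-(10 * q : ℝ)) := by
    have e1 : 2 * 2 ^ m / lam ^ (d + 1) * Real.sqrt (24 ^ m) ≤
        2 * Real.exp (21 / 10 * q) / Real.exp (20 * q) * Real.exp (11 / 2 * q) := by
      have := sqrt24n hmq
      gcongr
    refine e1.trans ?_
    have e2 : 2 * Real.exp (21 / 10 * (q : ℝ)) / Real.exp (20 * q) * Real.exp (11 / 2 * q) =
        2 * (Real.exp (21 / 10 * q) * (Real.exp (20 * q))⁻¹ * Real.exp (11 / 2 * q)) := by ring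
    rw [e2, ← Real.exp_neg, ← Real.exp_add, ← Real.exp_add]
    have e3 : Real.exp (21 / 10 * (q : ℝ) + -(20 * q) + 11 / 2 * q) ≤ Real.exp (-(10 * q : ℝ)) :=
      Real.exp_le_exp.2 (by linarith)
    linarith
  have hθ0 : 0 ≤ 2 * 2 ^ m / lam ^ (d + 1) * Real.sqrt (24 ^ m) := by positivity
  -- the term with `r`
  have fB : 2 * (2 * 2 ^ m * (4 * r / Real.exp (-(q / 2 : ℝ))) / lam ^ (d + 1) *
      Real.sqrt (24 ^ m * r)) ≤ 64 * Real.exp (-(10 * q : ℝ)) := by
    have e1 : 2 * (2 * 2 ^ m * (4 * r / Real.exp (-(q / 2 : ℝ))) / lam ^ (d + 1) *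
        Real.sqrt (24 ^ m * r)) ≤
        2 * (2 * Real.exp (21 / 10 * q) * (4 * (2 * Real.exp (q / 2)) / Real.exp (-(q / 2 : ℝ)))
          / Real.exp (20 * q) * (2 * Real.exp (11 / 2 * q))) := by
      have := sqrt24m hmq hr0.le hr2
      gcongr
    refine e1.trans ?_
    have e2 : 2 * (2 * Real.exp (21 / 10 * (q : ℝ)) * (4 * (2 * Real.exp (q / 2))
          / Real.exp (-(q / 2 : ℝ))) / Real.exp (20 * q) * (2 * Real.exp (11 / 2 * q))) =
        64 * (Real.exp (21 / 10 * q) * Real.exp (q / 2) * (Real.exp (-(q / 2 : ℝ)))⁻¹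
          * (Real.exp (20 * q))⁻¹ * Real.exp (11 / 2 * q)) := by ring
    rw [e2, ← Real.exp_neg, ← Real.exp_neg, ← Real.exp_add, ← Real.exp_add, ← Real.exp_add,
      ← Real.exp_add]
    refine mul_le_mul_of_nonneg_left (Real.exp_le_exp.2 ?_) (by norm_num)
    linarith
  -- the last term
  have fD : Real.sqrt (2 ^ m / (b : ℝ) ^ k) ≤ Real.exp (-(10 * q : ℝ)) := by
    rw [Real.sqrt_le_left (Real.exp_pos _).le]
    have k2 : Real.exp (60 * q) ≤ (b : ℝ) ^ k := by
      refine le_trans ?_ (pow_le_pow_left₀ (Real.exp_pos _).le hb3 k)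
      rw [← Real.exp_nat_mul]
      apply Real.exp_le_exp.2
      have g5 : (20 : ℝ) * m = 20 / β' * (β' * m) := by
        field_simp
      have g6 : 20 / β' * (β' * m) ≤ 20 / β' * k :=
        mul_le_mul_of_nonneg_left hk (by positivity)
      rw [mul_comm (k : ℝ)]
      linarith
    have k3 : (2 : ℝ) ^ m / (b : ℝ) ^ k ≤ Real.exp (21 / 10 * q) / Real.exp (60 * q) := by
      gcongr
    refine k3.trans ?_
    rw [← Real.exp_sub, ← Real.exp_nat_mul]
    apply Real.exp_le_exp.2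
    push_cast
    linarith
  have hqγ : Real.exp (-(1 / 8 * q)) < γ / 4 := by
    have : (1 / 24 * (m : ℝ)) = 1 / 8 * q := by
      rw [hmq]
      ring
    rw [← this]
    exact h1
  have h64 : 64 * Real.exp (-(10 * q : ℝ)) ≤ Real.exp (-(1 / 8 * (q : ℝ))) := by
    have e1 : Real.exp (-(q : ℝ)) ≤ Real.exp (-(1 / 8 * (q : ℝ))) :=
      Real.exp_le_exp.2 (by linarith)
    have e2 := Real.exp_pos (-(q : ℝ))
    linarith
  refine ⟨by linarith, fA, fD, ?_, fun v hv => ?_⟩
  · have e1 : Real.exp (3 * q / 8) * Real.exp (-(q / 2 : ℝ)) = Real.exp (-(1 / 8 * (q : ℝ))) := by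
      rw [← Real.exp_add]
      congr 1
      ring
    have e2 : Real.exp (3 * q / 8) * (2 * 2 ^ m / lam ^ (d + 1) * Real.sqrt (24 ^ m))
        ≤ Real.exp (3 * q / 8) * (2 * Real.exp (-(10 * q : ℝ))) :=
      mul_le_mul_of_nonneg_left fA (Real.exp_pos _).le
    have e3 : Real.exp (3 * q / 8) * (2 * Real.exp (-(10 * q : ℝ)))
        ≤ Real.exp (-(1 / 8 * (q : ℝ))) := by
      have e4 : Real.exp (3 * q / 8) ≤ Real.exp (9 * q) := Real.exp_le_exp.2 (by linarith)
      have e5 : Real.exp (9 * (q : ℝ)) * Real.exp (-(10 * q : ℝ)) = Real.exp (-(q : ℝ)) := by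
        rw [← Real.exp_add]
        congr 1
        ring
      have e6 : Real.exp (-(q : ℝ)) ≤ 1 / 2 * Real.exp (-(1 / 8 * (q : ℝ))) := by
        have e7 : Real.exp (-(q : ℝ)) = Real.exp (-(1 / 8 * (q : ℝ))) * Real.exp (-(7 / 8 * q)) := by
          rw [← Real.exp_add]
          congr 1
          ring
        have e8 : Real.exp (-(7 / 8 * (q : ℝ))) ≤ Real.exp (-1) :=
          Real.exp_le_exp.2 (by linarith)
        have e9 : Real.exp (-1) ≤ 1 / 2 := by
          rw [Real.exp_neg, one_div]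
          refine inv_anti₀ (by norm_num) ?_
          have := Real.add_one_le_exp (1 : ℝ)
          linarith
        have e10 := mul_le_mul_of_nonneg_left (e8.trans e9)
          (Real.exp_pos (-(1 / 8 * (q : ℝ)))).le
        rw [e7]
        linarith only [e10]
      calc Real.exp (3 * q / 8) * (2 * Real.exp (-(10 * q : ℝ)))
          ≤ Real.exp (9 * q) * (2 * Real.exp (-(10 * q : ℝ))) := by gcongr
        _ = 2 * (Real.exp (9 * q) * Real.exp (-(10 * q : ℝ))) := by ring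
        _ ≤ _ := by rw [e5]; linarith
    rw [e1]
    linarith
  · have hqq : Real.exp (-(q : ℝ)) = Real.exp (-(q / 2 : ℝ)) * Real.exp (-(q / 2 : ℝ)) := by
      rw [← Real.exp_add]
      congr 1
      ring
    have hpos : 0 < Real.exp (-(q / 2 : ℝ)) := Real.exp_pos _
    have hδγ : Real.exp (-(q : ℝ)) ≤ δ * Real.exp (-(q / 2 : ℝ)) := by
      rw [hqq]
      exact mul_le_mul_of_nonneg_right hδq hpos.le
    have fC : δ * (2 * 2 ^ m / lam ^ (d + 1) * Real.sqrt (24 ^ m))
        ≤ δ * (1 / 16 * Real.exp (-(q / 2 : ℝ))) := by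
      refine mul_le_mul_of_nonneg_left (fA.trans ?_) hδ0.le
      have e1 : Real.exp (-(q : ℝ)) ≤ Real.exp (-(q / 2 : ℝ)) := Real.exp_le_exp.2 (by linarith)
      have e2 := Real.exp_pos (-(10 * q : ℝ))
      linarith
    have hpos2 : 0 < δ * Real.exp (-(q / 2 : ℝ)) := by positivity
    linarith

/-- the numbers -/
theorem numbers8 (β' : ℝ) (hβ : 0 < β') (b₀ Δ : ℕ) (hΔ : 0 < Δ) :
    ∃ (lam κ : ℝ) (b : ℕ), 1 < lam ∧ 0 < κ ∧ 0 < b ∧ b₀ ≤ b ∧ lam ^ 8 ≤ 4 * b ∧
      ∀ K : ℕ, 0 < K → ∃ c : ℝ, 0 < c ∧ ∀ γ : ℝ, 0 < γ → ∀ m₀ : ℕ, ∃ n₀ : ℕ, ∀ n : ℕ, n₀ ≤ n →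
      ∀ m : ℕ, m = n / b → m₀ ≤ m ∧ 0 < m ∧ m * b ≤ n ∧ n ≤ m * b + b ∧ 32 ≤ β' * m ∧
      ∃ d₀ : ℕ, (d₀ : ℝ) ≤ β' * m - 1 ∧ κ * m + 3 * b ≤ d₀ ∧
      ∃ P γ' : ℝ, 0 < γ' ∧ γ' ≤ 1 ∧ 0 ≤ P ∧
      (96 * (b : ℝ)) ^ d₀ * (1 + 2 * (1 / (96 * b))) ^ n * Real.exp (c * n) ≤ P ∧
      ∀ d k r : ℕ, β' * m ≤ d + 1 → β' * m ≤ k → 0 < r → (r : ℝ) ≤ Real.exp (c * n) + 1 →
        2 * 2 ^ m / lam ^ (d + 1) * Real.sqrt (24 ^ m) ≤ γ / 2 ∧
        P * γ' + P * (2 * 2 ^ m / lam ^ (d + 1) * Real.sqrt (24 ^ m))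
          + Real.exp (c * n) / 2 ^ ((d₀ - 3 * b) / K) < γ ∧
        ∀ J w : ℕ, (J : ℝ) ≤ Real.exp (c * n) → (w : ℝ) ≤ c * n →
        2 * (2 * 2 ^ m * (4 * r / γ') / lam ^ (d + 1) * Real.sqrt (24 ^ m * r))
          + Real.exp (-(c * n)) * (2 * 2 ^ m / lam ^ (d + 1) * Real.sqrt (24 ^ m))
          + Real.exp (-(c * n)) * γ' / 8 + (Real.sqrt (2 ^ m / (b : ℝ) ^ k)
            + ((12 * (Δ : ℝ)) ^ w * (1 + 1 / (12 * (Δ : ℝ))) ^ (Δ * m)) * J * ((b : ℝ) ^ (3 * w)
              * (2 * 2 ^ m / lam ^ (d + 1) * Real.sqrt (24 ^ m)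
                + w * Real.sqrt (2 ^ m / (b : ℝ) ^ k))))
          < Real.exp (-(c * n)) * γ' / 2 := by
  obtain ⟨lam, b, h1, h2, h3, h4, h5⟩ := in_m8 β' hβ b₀
  have hb0 : (0 : ℝ) < b := by exact_mod_cast h2
  have hb1 : (1 : ℝ) ≤ b := by exact_mod_cast h2
  have hlog2 : 0 < Real.log 2 := Real.log_pos (by norm_num)
  have hlog96 : 0 < Real.log (96 * b) := Real.log_pos (by linarith)
  set κ : ℝ := min (β' / 2) (1 / (24 * Real.log (96 * b))) with hκ
  have hκ0 : 0 < κ := lt_min (by positivity) (by positivity)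
  refine ⟨lam, κ / 2, b, h1, by positivity, h2, h3, h4, fun K hK => ?_⟩
  have hK0 : (0 : ℝ) < K := by exact_mod_cast hK
  have hΔ1 : (1 : ℝ) ≤ Δ := by exact_mod_cast hΔ
  have hlogt : 0 < Real.log (12 * Δ) := Real.log_pos (by linarith)
  set c : ℝ := min (min (1 / (48 * b)) (κ * Real.log 2 / (4 * b * K)))
    (min (1 / (24 * b * Real.log (12 * Δ))) (1 / (72 * b * Real.log (96 * b)))) with hc
  have hc0 : 0 < c := lt_min (lt_min (by positivity) (by positivity))
    (lt_min (by positivity) (by positivity))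
  refine ⟨c, hc0, fun γ hγ m₀ => ?_⟩
  obtain ⟨m₁, h5⟩ := h5 γ hγ
  -- the mass of the deep nodes
  have hlim : Tendsto (fun m : ℕ => Real.exp (((1 + 3 * b) / K + 1) * Real.log 2) *
      Real.exp (-(κ * Real.log 2 / (2 * K) * (m : ℝ)))) atTop (𝓝 0) := by
    have := (Real.tendsto_exp_neg_atTop_nhds_zero.comp
      ((tendsto_natCast_atTop_atTop (R := ℝ)).const_mul_atTop
        (by positivity : 0 < κ * Real.log 2 / (2 * K)))).const_mul
          (Real.exp (((1 + 3 * b) / K + 1) * Real.log 2))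
    simpa using this
  obtain ⟨m₂, hm₂⟩ := (hlim.eventually (gt_mem_nhds (by positivity : (0 : ℝ) < γ / 4))
    ).exists_forall_of_atTop
  obtain ⟨m₃, hm₃⟩ := exists_nat_ge (2 * (1 + 3 * (b : ℝ)) / κ)
  refine ⟨b * (m₀ + m₁ + m₂ + m₃ + 1), fun n hn m hm => ?_⟩
  have hm1 : b * m ≤ n := by
    rw [hm]
    exact Nat.mul_div_le n b
  have hm2 : n < b * (m + 1) := by
    have := Nat.lt_mul_div_succ n h2
    rw [← hm] at this
    exact this
  have hmm : m₀ + m₁ + m₂ + m₃ ≤ m := by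
    by_contra hc
    push Not at hc
    have h6 : b * (m + 1) ≤ b * (m₀ + m₁ + m₂ + m₃ + 1) := Nat.mul_le_mul_left _ (by omega)
    omega
  obtain ⟨g2, g3, g4⟩ := h5 m (by omega)
  set q : ℝ := (m : ℝ) / 3 with hq
  have hmq : (m : ℝ) = 3 * q := by
    rw [hq]
    ring
  have hm36 : (36 : ℝ) ≤ m := by exact_mod_cast g2
  have hn1 : (n : ℝ) ≤ b * (m + 1) := by exact_mod_cast hm2.le
  have hn2 : (n : ℝ) ≤ 2 * b * m := by
    have : (b : ℝ) * 1 ≤ b * m := mul_le_mul_of_nonneg_left (by linarith only [hm36]) hb0.le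
    linarith only [this, hn1]
  set d₀ : ℕ := ⌊κ * m⌋₊ with hd₀
  have hd1 : (d₀ : ℝ) ≤ κ * m := Nat.floor_le (by positivity)
  have hd2 : κ * m < d₀ + 1 := Nat.lt_floor_add_one _
  have hcn1 : c * n ≤ q / 8 := by
    calc c * n ≤ 1 / (48 * b) * (2 * b * m) :=
          mul_le_mul ((min_le_left _ _).trans (min_le_left _ _)) hn2 (Nat.cast_nonneg _)
            (by positivity)
      _ = q / 8 := by
          rw [hq]
          field_simp
          norm_num
  have hcn2 : c * n ≤ κ * Real.log 2 / (2 * K) * m := by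
    calc c * n ≤ κ * Real.log 2 / (4 * b * K) * (2 * b * m) :=
          mul_le_mul ((min_le_left _ _).trans (min_le_right _ _)) hn2 (Nat.cast_nonneg _)
            (by positivity)
      _ = κ * Real.log 2 / (2 * K) * m := by field_simp; norm_num
  have hcn3 : c * n * Real.log (12 * Δ) ≤ q / 4 := by
    calc c * n * Real.log (12 * Δ) ≤ 1 / (24 * b * Real.log (12 * Δ)) * (2 * b * m)
          * Real.log (12 * Δ) := by
          refine mul_le_mul_of_nonneg_right ?_ hlogt.le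
          exact mul_le_mul ((min_le_right _ _).trans (min_le_left _ _)) hn2 (Nat.cast_nonneg _)
            (by positivity)
      _ = q / 4 := by
          rw [hq]
          field_simp
          norm_num
  have hcn4 : 3 * (c * n) * Real.log (96 * b) ≤ q / 4 := by
    calc 3 * (c * n) * Real.log (96 * b) ≤ 3 * (1 / (72 * b * Real.log (96 * b)) * (2 * b * m))
          * Real.log (96 * b) := by
          refine mul_le_mul_of_nonneg_right ?_ hlog96.le
          refine mul_le_mul_of_nonneg_left ?_ (by norm_num)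
          exact mul_le_mul ((min_le_right _ _).trans (min_le_right _ _)) hn2 (Nat.cast_nonneg _)
            (by positivity)
      _ = q / 4 := by
          have hne := hlog96.ne'
          rw [hq]
          generalize Real.log (96 * (b : ℝ)) = l at hne ⊢
          field_simp
          norm_num
  have hm₃' : 2 * (1 + 3 * (b : ℝ)) ≤ κ * m := by
    rw [div_le_iff₀ hκ0] at hm₃
    have h6 : (m₃ : ℝ) ≤ m := by exact_mod_cast (by omega : m₃ ≤ m)
    have h7 := mul_le_mul_of_nonneg_right h6 hκ0.le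
    linarith only [h7, hm₃]
  refine ⟨by omega, by omega, by rw [mul_comm]; exact hm1, by
    rw [mul_comm m b]
    rw [mul_add, mul_one] at hm2
    omega, g3, d₀, ?_, by linarith, Real.exp (3 * q / 8), Real.exp (-(q / 2 : ℝ)),
    Real.exp_pos _, Real.exp_le_one_iff.2 (by linarith), (Real.exp_pos _).le, ?_,
    fun d k r hd hk hr hr2 => ?_⟩
  · have h6 : κ * m ≤ β' / 2 * m := mul_le_mul_of_nonneg_right (min_le_left _ _) (by linarith)
    linarith
  · have e1 : (96 * (b : ℝ)) ^ d₀ ≤ Real.exp (q / 8) := by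
      rw [← Real.exp_log (by positivity : (0 : ℝ) < 96 * b), ← Real.exp_nat_mul]
      apply Real.exp_le_exp.2
      calc (d₀ : ℝ) * Real.log (96 * b) ≤ (1 / (24 * Real.log (96 * b)) * m)
            * Real.log (96 * b) := by
            refine mul_le_mul_of_nonneg_right (hd1.trans ?_) hlog96.le
            exact mul_le_mul_of_nonneg_right (min_le_right _ _) (by linarith)
        _ = q / 8 := by
            rw [hq]
            field_simp
            norm_num
    have e2 : (1 + 2 * (1 / (96 * (b : ℝ)))) ^ n ≤ Real.exp (q / 8) := by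
      have e3 : 1 + 2 * (1 / (96 * (b : ℝ))) ≤ Real.exp (2 * (1 / (96 * (b : ℝ)))) := by
        have := Real.add_one_le_exp (2 * (1 / (96 * (b : ℝ))))
        linarith
      refine (pow_le_pow_left₀ (by positivity) e3 n).trans ?_
      rw [← Real.exp_nat_mul]
      apply Real.exp_le_exp.2
      calc (n : ℝ) * (2 * (1 / (96 * b))) ≤ (2 * b * m) * (2 * (1 / (96 * b))) :=
            mul_le_mul_of_nonneg_right hn2 (by positivity)
        _ = q / 8 := by
            rw [hq]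
            field_simp
            norm_num
    calc (96 * (b : ℝ)) ^ d₀ * (1 + 2 * (1 / (96 * b))) ^ n * Real.exp (c * n)
        ≤ Real.exp (q / 8) * Real.exp (q / 8) * Real.exp (q / 8) :=
          mul_le_mul (mul_le_mul e1 e2 (by positivity) (Real.exp_pos _).le)
            (Real.exp_le_exp.2 hcn1) (Real.exp_pos _).le (by positivity)
      _ = Real.exp (3 * q / 8) := by
          rw [← Real.exp_add, ← Real.exp_add]
          congr 1
          ring
  · have hr3 : (r : ℝ) ≤ 2 * Real.exp (q / 2) := by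
      have e2 : Real.exp (c * n) ≤ Real.exp (q / 2) := Real.exp_le_exp.2 (by linarith)
      have e3 : 1 ≤ Real.exp ((q : ℝ) / 2) := Real.one_le_exp (by linarith)
      linarith
    obtain ⟨f1, fA, fD, f2, f3⟩ := g4 (c * n) q hmq (by linarith) d k r hd hk hr hr3
    refine ⟨f1, ?_, fun J w hJ hw => f3 _ ?_⟩
    swap
    · -- the constraints
      have hq12 : (12 : ℝ) ≤ q := by linarith
      have k1 : (12 * (Δ : ℝ)) ^ w ≤ Real.exp (q / 4) := by
        rw [← Real.exp_log (by positivity : (0 : ℝ) < 12 * Δ), ← Real.exp_nat_mul]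
        apply Real.exp_le_exp.2
        exact (mul_le_mul_of_nonneg_right hw hlogt.le).trans hcn3
      have k2 : (1 + 1 / (12 * (Δ : ℝ))) ^ (Δ * m) ≤ Real.exp (q / 4) := by
        have e3 : 1 + 1 / (12 * (Δ : ℝ)) ≤ Real.exp (1 / (12 * (Δ : ℝ))) := by
          have := Real.add_one_le_exp (1 / (12 * (Δ : ℝ)))
          linarith
        refine (pow_le_pow_left₀ (by positivity) e3 _).trans ?_
        rw [← Real.exp_nat_mul]
        apply Real.exp_le_exp.2
        apply le_of_eq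
        rw [hq]
        push_cast
        field_simp
        norm_num
      have k3 : (J : ℝ) ≤ Real.exp (q / 8) := hJ.trans (Real.exp_le_exp.2 hcn1)
      have k4 : (b : ℝ) ^ (3 * w) ≤ Real.exp (q / 4) := by
        have e3 : (b : ℝ) ≤ Real.exp (Real.log (96 * b)) := by
          rw [Real.exp_log (by positivity)]
          linarith
        refine (pow_le_pow_left₀ hb0.le e3 _).trans ?_
        rw [← Real.exp_nat_mul]
        apply Real.exp_le_exp.2
        refine le_trans ?_ hcn4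
        refine mul_le_mul_of_nonneg_right ?_ hlog96.le
        push_cast
        linarith
      have k5 : (w : ℝ) ≤ Real.exp q := by
        have := Real.add_one_le_exp q
        linarith
      have e1 : ((12 * (Δ : ℝ)) ^ w * (1 + 1 / (12 * (Δ : ℝ))) ^ (Δ * m)) * J * ((b : ℝ) ^ (3 * w)
              * (2 * 2 ^ m / lam ^ (d + 1) * Real.sqrt (24 ^ m)
                + w * Real.sqrt (2 ^ m / (b : ℝ) ^ k)))
          ≤ (Real.exp (q / 4) * Real.exp (q / 4)) * Real.exp (q / 8) * (Real.exp (q / 4)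
              * (2 * Real.exp (-(10 * q : ℝ)) + Real.exp q * Real.exp (-(10 * q : ℝ)))) := by
        gcongr
      have e2 : (Real.exp (q / 4) * Real.exp (q / 4)) * Real.exp (q / 8) * (Real.exp (q / 4)
              * (2 * Real.exp (-(10 * q : ℝ)) + Real.exp q * Real.exp (-(10 * q : ℝ))))
          = 2 * Real.exp (-(73 / 8 * q)) + Real.exp (-(65 / 8 * q)) := by
        have h7 : Real.exp (-(73 / 8 * q)) = (Real.exp (q / 4) * Real.exp (q / 4))
            * Real.exp (q / 8) * Real.exp (q / 4) * Real.exp (-(10 * q : ℝ)) := by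
          rw [← Real.exp_add, ← Real.exp_add, ← Real.exp_add, ← Real.exp_add]
          congr 1
          ring
        have h8 : Real.exp (-(65 / 8 * q)) = Real.exp (-(73 / 8 * q)) * Real.exp q := by
          rw [← Real.exp_add]
          congr 1
          ring
        rw [h8, h7]
        ring
      have e3 : Real.exp (-(73 / 8 * q)) ≤ Real.exp (-(8 * q)) := Real.exp_le_exp.2 (by linarith)
      have e4 : Real.exp (-(65 / 8 * q)) ≤ Real.exp (-(8 * q)) := Real.exp_le_exp.2 (by linarith)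
      have e5 : Real.exp (-(10 * q)) ≤ Real.exp (-(8 * q)) := Real.exp_le_exp.2 (by linarith)
      have e6 : 64 * Real.exp (-(8 * q)) ≤ Real.exp (-q) := by
        have h7 : Real.exp (-(8 * q)) = Real.exp (-q) * Real.exp (-(7 * q)) := by
          rw [← Real.exp_add]
          congr 1
          ring
        have h8 : Real.exp (-(7 * q)) ≤ 1 / 64 := by
          have h9 : Real.exp (-(7 * q)) ≤ Real.exp (-((6 : ℕ) * 1)) :=
            Real.exp_le_exp.2 (by push_cast; linarith)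
          refine h9.trans ?_
          rw [Real.exp_neg, one_div]
          refine inv_anti₀ (by norm_num) ?_
          rw [Real.exp_nat_mul]
          have h10 : (2 : ℝ) ≤ Real.exp 1 := by
            have := Real.add_one_le_exp (1 : ℝ)
            linarith
          calc (64 : ℝ) = 2 ^ 6 := by norm_num
            _ ≤ Real.exp 1 ^ 6 := pow_le_pow_left₀ (by norm_num) h10 6
        have h9 := mul_le_mul_of_nonneg_left h8 (Real.exp_pos (-q)).le
        rw [h7]
        linarith only [h9]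
      rw [e2] at e1
      linarith
    have f4 : Real.exp (c * n) / 2 ^ ((d₀ - 3 * b) / K) ≤
        Real.exp (((1 + 3 * b) / K + 1) * Real.log 2) *
          Real.exp (-(κ * Real.log 2 / (2 * K) * (m : ℝ))) := by
      have e1 : (2 : ℝ) ^ ((d₀ - 3 * b) / K) = Real.exp (((d₀ - 3 * b) / K : ℕ) * Real.log 2) := by
        rw [Real.exp_nat_mul, Real.exp_log (by norm_num)]
      rw [e1, ← Real.exp_sub, ← Real.exp_add]
      apply Real.exp_le_exp.2
      have e2 : d₀ ≤ 3 * b + K * ((d₀ - 3 * b) / K + 1) := by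
        have := Nat.lt_mul_div_succ (d₀ - 3 * b) hK
        omega
      have e3 : (d₀ : ℝ) ≤ 3 * b + K * (((d₀ - 3 * b) / K : ℕ) + 1) := by exact_mod_cast e2
      have e4 : κ * m / K ≤ (1 + 3 * b) / K + 1 + ((d₀ - 3 * b) / K : ℕ) := by
        rw [div_le_iff₀ hK0]
        have : ((1 + 3 * b) / K + 1 + (((d₀ - 3 * b) / K : ℕ) : ℝ)) * K
            = 1 + 3 * b + K * ((((d₀ - 3 * b) / K : ℕ) : ℝ) + 1) := by
          field_simp
          ring
        rw [this]
        linarith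
      have e5 := mul_le_mul_of_nonneg_right e4 hlog2.le
      have e6 : κ * m / K * Real.log 2 = 2 * (κ * Real.log 2 / (2 * K) * m) := by
        field_simp
      rw [e6] at e5
      linarith
    have f5 := hm₂ m (by omega)
    linarith

/-- the size of the exceptional sets -/
theorem exists_L (κ : ℝ) (hκ : 0 < κ) (L₀ : ℕ) :
    ∃ L : ℕ, L₀ ≤ L ∧ 5 ≤ L ∧ 4 * (3 * (L : ℝ) + 2) ^ 5 * (24 / 2 ^ L) ≤ κ := by
  have hlim : Tendsto (fun L : ℕ => 96 * 5 ^ 5 * ((L : ℝ) ^ 5 * (1 / 2) ^ L)) atTop (𝓝 0) := by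
    have := (tendsto_pow_const_mul_const_pow_of_lt_one 5 (by norm_num : (0 : ℝ) ≤ 1 / 2)
      (by norm_num)).const_mul (96 * 5 ^ 5)
    simpa using this
  obtain ⟨L, hL1, hL2⟩ := ((hlim.eventually (gt_mem_nhds hκ)).and
    (eventually_ge_atTop (L₀ + 5))).exists
  refine ⟨L, by omega, by omega, le_trans ?_ hL1.le⟩
  have hL3 : (1 : ℝ) ≤ L := by
    have : 1 ≤ L := by omega
    exact_mod_cast this
  have h1 : (3 * (L : ℝ) + 2) ^ 5 ≤ (5 * L) ^ 5 := pow_le_pow_left₀ (by positivity) (by linarith) 5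
  calc 4 * (3 * (L : ℝ) + 2) ^ 5 * (24 / 2 ^ L) ≤ 4 * (5 * L) ^ 5 * (24 / 2 ^ L) := by gcongr
    _ = 96 * 5 ^ 5 * ((L : ℝ) ^ 5 * (1 / 2) ^ L) := by
        rw [mul_pow, one_div, inv_pow]
        ring

end AV
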