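import Pool.Agent.AV.Cuts
import Pool.Agent.AV.Minimax
import Pool.Agent.AV.Numbers8

/-!
# AV: the pseudo-measure of a random 3-CNF formula

The triples of the clauses are in a large set `G` of systems of triples, the signs are arbitrary.
-/

set_option autoImplicit false

open scoped BigOperators Matrix Kronecker

namespace AV

open LIFT SDX BB LIFT.h93d

open Classical in
/-- There is a pseudo-measure which is nearly nonnegative on rectangles, has a small mass on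
subcubes and a small mass on rectangles with a certificate of the formula. -/
def Meas {m M : ℕ} (n b : ℕ) (c γ : ℝ) (a : Fin M → (Fin 3 ↪ Fin m)) (s : Fin M → Fin 3 → Bool) :
    Prop :=
  ∃ (d₀ : ℕ) (mu : (Fin m → Fin b) → (Fin m × Fin b → Bool) → ℝ) (P γ' θ ν : ℝ),
  (∀ S, ∑ x, mu S x = 2 ^ (m * b)) ∧
  0 ≤ γ' ∧ 0 ≤ θ ∧ θ ≤ γ / 2 ∧ 0 ≤ ν ∧ P * γ' + P * θ + Real.exp (c * n) * ν < γ ∧
  (((Finset.univ : Finset (Fin n → Option Bool)).filter fun ρ =>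
    (dom ρ).card ≤ d₀).card : ℝ) * Real.exp (c * n) ≤ P ∧
  -- (rect)
  (∀ (u : (Fin m × Fin b → Bool) → ℝ) (v : (Fin m → Fin b) → ℝ), (∀ x, 0 ≤ u x ∧ u x ≤ 1) →
    (∀ S, 0 ≤ v S ∧ v S ≤ 1) →
    -(θ * ((b : ℝ) ^ m * 2 ^ (m * b))) ≤ ∑ S, ∑ x, v S * (u x * mu S x)) ∧
  -- (deep)
  (∀ (F : Finset (Fin m × Fin b)) (a : Fin m × Fin b → Bool) (S : Fin m → Fin b),
    d₀ ≤ F.card + 3 * b → F.card ≤ d₀ → ∑ x, ind F a x * mu S x ≤ 2 ^ (m * b) * ν) ∧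
  -- (cert)
  ∀ (r J : ℕ) (E : Type) [AddCommGroup E] [Module ℝ E]
    (𝓐 : AffineSubspace ℝ (E × Matrix (Fin r) (Fin r) ℝ))
    (𝒳 : Finset (Fin m × Fin b → Bool)) (𝒮 : Finset (Fin m → Fin b))
    (pt : (Fin m × Fin b → Bool) → E × Matrix (Fin r) (Fin r) ℝ)
    (obj : (Fin m → Fin b) → (E × Matrix (Fin r) (Fin r) ℝ) →ᵃ[ℝ] ℝ)
    (cut : Finset (Fin M) → Fin J → (Fin m → Fin b) → (E × Matrix (Fin r) (Fin r) ℝ) →ᵃ[ℝ] ℝ),
    (r : ℝ) ≤ Real.exp (c * n) → (J : ℝ) ≤ Real.exp (c * n) →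
    (∀ x ∈ 𝒳, pt x ∈ 𝓐 ∧ (pt x).2.PosSemidef) →
    (∀ S ∈ 𝒮, ∀ x ∈ 𝒳, obj S (pt x) = 1 - (((Finset.univ : Finset (Fin M)).filter
      fun e => ∀ i, rs S x (a e i) ≠ s e i).card : ℝ) / M) →
    (∀ T k S S', (∀ e ∈ T, ∀ t, S (a e t) = S' (a e t)) → cut T k S = cut T k S') →
    (∀ T k S, ∀ x ∈ 𝒳, |cut T k S (pt x)| ≤ 1) →
    (∀ T k S, ∀ x ∈ 𝒳, (∀ e ∈ T, ∃ i, rs S x (a e i) = s e i) → cut T k S (pt x) ≤ 0) →
    (∀ S ∈ 𝒮, ∀ p ∈ 𝓐, p.2.PosSemidef → obj S p < 1 - Real.exp (-(c * n)) ∨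
      ∃ T : Finset (Fin M), (T.card : ℝ) ≤ c * n ∧ ∃ k, Real.exp (-(c * n)) < cut T k S p) →
    ∑ S ∈ 𝒮, ∑ x ∈ 𝒳, mu S x ≤ γ' * ((b : ℝ) ^ m * 2 ^ (m * b))

/-- evaluation of a combination of affine functions -/
theorem sum_affine {V : Type} [AddCommGroup V] [Module ℝ V] {I : Type} (s : Finset I) (α : I → ℝ)
    (f : I → (V →ᵃ[ℝ] ℝ)) (p : V) : (∑ i ∈ s, α i • f i) p = ∑ i ∈ s, α i * f i p := by
  classical
  induction s using Finset.induction_on with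
  | empty => simp
  | insert i s hi ih =>
    rw [Finset.sum_insert hi, Finset.sum_insert hi, AffineMap.coe_add, Pi.add_apply, ih,
      AffineMap.coe_smul, Pi.smul_apply, smul_eq_mul]

theorem core8 (Δ : ℕ) (hΔ : 0 < Δ) :
    ∃ (c : ℝ) (b : ℕ), 0 < c ∧ 0 < b ∧ Δ ≤ b ∧ ∀ γ η : ℝ, 0 < γ → 0 < η →
      ∃ n₀ : ℕ, ∀ n : ℕ, n₀ ≤ n → ∀ m : ℕ, m = n / b → 0 < m ∧ m * b ≤ n ∧ n ≤ m * b + 3 * b ∧
      ∃ G : Finset (Fin (Δ * m) → (Fin 3 ↪ Fin m)),
      ((Gᶜ).card : ℝ) ≤ η * (Fintype.card (Fin 3 ↪ Fin m) : ℝ) ^ (Δ * m) ∧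
      ∀ a ∈ G, ∀ s : Fin (Δ * m) → Fin 3 → Bool, Meas n b c γ a s := by
  set β : ℝ := bt Δ with hβdef
  have hβ : 0 < β := bt_pos hΔ
  obtain ⟨lam, κ, b, hlam, hκ, hb, hbb, hlb, hnum⟩ := numbers8 (β / 16) (by positivity) Δ Δ hΔ
  obtain ⟨L, hLΔ, hL5, hLκ⟩ := exists_L κ hκ (18 * Δ)
  set K : ℕ := (3 * L + 2) ^ 5 with hKdef
  have hK : 0 < K := by positivity
  obtain ⟨c, hc, hnum⟩ := hnum (4 * K) (by omega)
  refine ⟨c, b, hc, hb, hbb, fun γ η hγ hη => ?_⟩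
  have hb' : (0 : ℝ) < b := by exact_mod_cast hb
  have hb1 : (1 : ℝ) ≤ b := by exact_mod_cast hb
  have h2L : (0 : ℝ) < 2 ^ L := by positivity
  -- the exceptional systems
  obtain ⟨m₁, hm₁⟩ := expand_rand Δ hΔ (η / 2) (by positivity)
  obtain ⟨k₀, hk₀⟩ := exists_pow_lt_of_lt_one (by positivity : 0 < η / 2)
    (by norm_num : (1 / 4 : ℝ) < 1)
  obtain ⟨m₂, hm₂⟩ := exists_nat_ge ((k₀ + 2) * 2 ^ L : ℝ)
  obtain ⟨n₀, hn₀⟩ := hnum γ hγ (m₁ + m₂ + 1)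
  refine ⟨n₀, fun n hn m hmdef => ?_⟩
  obtain ⟨hmm, hm, hqn, hnq, h32, d₀, hdq, hdκ, P, γ', hγ', hγ'1, hP, hcount, hfin⟩ :=
    hn₀ n hn m hmdef
  have hm' : (0 : ℝ) < m := by exact_mod_cast hm
  have hm₂' : (k₀ + 2) * 2 ^ L ≤ (m : ℝ) := by
    refine hm₂.trans ?_
    exact_mod_cast (by omega : m₂ ≤ m)
  have hk₀0 : (0 : ℝ) ≤ k₀ := Nat.cast_nonneg _
  obtain ⟨hz0, hzm, hz12, hz1, hz2⟩ := zz_spec (m := m) hL5 (by nlinarith)
  refine ⟨hm, hqn, hnq.trans (by omega), Finset.univ.filter fun a =>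
    (∀ C : Finset (Fin (Δ * m)), (C.card : ℝ) ≤ bt Δ * m →
      C.card ≤ 2 * (bsum (fun e => vs (a e)) C).card) ∧
    ∀ Z : Finset (Fin m), Z.card ≤ zz L m →
      ((Finset.univ : Finset (Fin (Δ * m))).filter fun e => ∃ t, a e t ∈ Z).card ≤ L * zz L m,
    ?_, ?_⟩
  · have h1 := hm₁ m (by omega)
    have h2 := touch_rand Δ L (zz L m) m (by omega) hLΔ hz0 hzm hz12
    have h3 : ((1 : ℝ) / 4) ^ zz L m ≤ η / 2 := by
      refine le_trans ?_ hk₀.le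
      refine pow_le_pow_of_le_one (by norm_num) (by norm_num) ?_
      have h4 : (k₀ : ℝ) ≤ zz L m := by
        refine le_trans ?_ hz2
        rw [le_div_iff₀ h2L]
        nlinarith
      exact_mod_cast h4
    have h4 : (0 : ℝ) ≤ (Fintype.card (Fin 3 ↪ Fin m) : ℝ) ^ (Δ * m) := by positivity
    have h5 := mul_le_mul_of_nonneg_right h3 h4
    refine le_trans ?_ (le_of_eq (show η / 2 * (Fintype.card (Fin 3 ↪ Fin m) : ℝ) ^ (Δ * m)
      + η / 2 * (Fintype.card (Fin 3 ↪ Fin m) : ℝ) ^ (Δ * m)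
        = η * (Fintype.card (Fin 3 ↪ Fin m) : ℝ) ^ (Δ * m) by ring))
    refine le_trans ?_ (add_le_add h1 (h2.trans h5))
    rw [← Nat.cast_add]
    refine Nat.cast_le.2 ((Finset.card_le_card fun a ha => ?_).trans (Finset.card_union_le _ _))
    rw [Finset.mem_compl, Finset.mem_filter] at ha
    rw [Finset.mem_union, Finset.mem_filter, Finset.mem_filter]
    by_contra hcon
    push Not at hcon
    refine ha ⟨Finset.mem_univ _, ?_, ?_⟩
    · exact hcon.1 (Finset.mem_univ _)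
    · exact hcon.2 (Finset.mem_univ _)
  intro a ha s
  obtain ⟨-, hexp, htouch⟩ := Finset.mem_filter.1 ha
  have hM : 0 < Δ * m := Nat.mul_pos hΔ hm
  -- the pseudo-density
  set t : ℕ := ⌊β * m / 2⌋₊ with ht
  set w : ℕ := t / 4 with hw
  set d : ℕ := w / 2 with hd
  have h1 : (t : ℝ) ≤ β * m / 2 := Nat.floor_le (by positivity)
  have h2 : β * m / 2 < t + 1 := Nat.lt_floor_add_one _
  have h3 : 255 ≤ t := by
    have : (255 : ℝ) < t + 1 := by linarith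
    have : 255 < t + 1 := by exact_mod_cast this
    omega
  have hβd : β / 16 * m ≤ d + 1 := by
    have h4 : t + 1 ≤ 8 * (d + 1) := by omega
    have h5 : (t : ℝ) + 1 ≤ 8 * (d + 1) := by exact_mod_cast h4
    linarith
  have hβk : β / 16 * m ≤ ((w - 3 : ℕ) : ℝ) := by
    have h4 : t + 1 ≤ 8 * (w - 3) := by omega
    have h5 : (t : ℝ) + 1 ≤ 8 * ((w - 3 : ℕ) : ℝ) := by exact_mod_cast h4
    linarith
  have hd₀ : d₀ ≤ d := by
    have : (d₀ : ℝ) ≤ d := by linarith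
    exact_mod_cast this
  set A : Fin (Δ * m) → Finset (Fin m) := fun e => vs (a e) with hA
  have hA3 : ∀ e, (A e).card = 3 := fun e => card_vs _
  have hexpand : SDX.h8.Expand A (2 * t) := by
    intro C hCt
    exact hexp C (by
      have : (C.card : ℝ) ≤ 2 * t := by exact_mod_cast hCt
      linarith)
  obtain ⟨D, hD1, hD2, hD3, hD4, hDC, hD5⟩ := xor_pd6 (t := t) (w := w) (d := d) A
    (fun e => sx (s e)) (by omega) (by omega) hA3 (fun C hC hCt => by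
      have h6 : C.card ≤ 2 * (odd A C).card := hexpand C hCt
      have h7 := hC.card_pos
      exact Finset.card_pos.1 (by omega))
    (fun C hC hCt => by
      have h6 : C.card ≤ 2 * (odd A C).card := hexpand C hCt
      omega)
  have h2pos : (0 : ℝ) < 2 ^ m := by positivity
  have hDsum : ∑ y, D y = 2 ^ m := by
    have h6 := hD3
    rw [coef, Fintype.card_fin, div_eq_iff h2pos.ne', one_mul] at h6
    simpa [chr] using h6
  -- the numbers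
  set θ : ℝ := 2 * 2 ^ m / lam ^ (d + 1) * Real.sqrt (24 ^ m) with hθ
  obtain ⟨hθγ, htot, -⟩ := hfin d (w - 3) 1 hβd hβk one_pos (by
    have := Real.exp_pos (c * n)
    push_cast
    linarith)
  unfold Meas
  refine ⟨d₀, fun S x => D (rs S x), P, γ', θ,
    1 / 2 ^ ((d₀ - 3 * b) / (4 * K)), ?_, hγ'.le, by positivity, hθγ, by positivity, ?_,
    (mul_le_mul_of_nonneg_right (card_partial (96 * b) (by linarith))
      (Real.exp_pos _).le).trans hcount, ?_, ?_, ?_⟩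
  · intro S
    have h6 := sum_rs S D
    rw [hDsum] at h6
    have h7 : (2 : ℝ) ^ m * (∑ x : Fin m × Fin b → Bool, D (rs S x))
        = 2 ^ m * 2 ^ (m * b) := by rw [h6]; ring
    exact mul_left_cancel₀ h2pos.ne' h7
  · rw [mul_one_div]
    exact htot
  · intro u v hu hv
    have h6 := rect4 (m := m) (d := d) hb lam (2 ^ m) hlam hlb h2pos D hD2 hD5 u hu v hv
    refine le_trans (neg_le_neg (le_of_eq ?_)) h6
    rw [hθ]
    ring
  · intro F a' S hF1 hF2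
    have hFz : 4 * K * zz L m ≤ F.card := by
      have h6 : (4 * K * zz L m : ℝ) ≤ κ * m := by
        have h7 : (K : ℝ) = (3 * (L : ℝ) + 2) ^ 5 := by
          rw [hKdef]
          push_cast
          ring
        calc (4 * K * zz L m : ℝ) ≤ 4 * K * (24 * (m : ℝ) / 2 ^ L) := by gcongr
          _ = 4 * (3 * (L : ℝ) + 2) ^ 5 * (24 / 2 ^ L) * m := by
              rw [h7]
              ring
          _ ≤ κ * m := by gcongr
      have h7 : (d₀ : ℝ) ≤ F.card + 3 * b := by exact_mod_cast hF1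
      have h8 : (4 * K * zz L m : ℝ) ≤ F.card := by linarith
      exact_mod_cast h8
    have h6 := mass_cube_le2 hA3 hexpand hK (ball_of_touch a hz0 htouch) D
      (fun B hB => by
        obtain ⟨C, hC, hCB⟩ := hDC B hB
        exact ⟨C, by omega, hCB⟩) hD3 hD5 S F (hF2.trans hd₀) hFz a'
    have h7 : (d₀ - 3 * b) / (4 * K) ≤ F.card / (4 * K) := Nat.div_le_div_right (by omega)
    have h8 : (2 : ℝ) ^ ((d₀ - 3 * b) / (4 * K)) ≤ 2 ^ (F.card / (4 * K)) :=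
      pow_le_pow_right₀ (by norm_num) h7
    have h9 : (0 : ℝ) < 2 ^ (F.card / (4 * K)) := by positivity
    rw [mul_one_div, le_div_iff₀ (by positivity)]
    rcases le_or_gt 0 (∑ x, ind F a' x * D (rs S x)) with h10 | h10
    · calc (∑ x, ind F a' x * D (rs S x)) * 2 ^ ((d₀ - 3 * b) / (4 * K))
          ≤ (∑ x, ind F a' x * D (rs S x)) * 2 ^ (F.card / (4 * K)) :=
            mul_le_mul_of_nonneg_left h8 h10
        _ ≤ 2 ^ (m * b) := by rw [mul_comm]; exact h6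
    · have h11 : (0 : ℝ) < 2 ^ ((d₀ - 3 * b) / (4 * K)) := by positivity
      have h12 := mul_neg_of_neg_of_pos h10 h11
      have h13 : (0 : ℝ) < 2 ^ (m * b) := by positivity
      linarith
  intro r J E _ _ 𝓐 𝒳 𝒮 pt obj cut hr hJ hpt hval hcut1 hcut2 hcut3 hno
  by_contra hrect
  push Not at hrect
  set δ : ℝ := Real.exp (-(c * n)) with hδdef
  have hδ : 0 < δ := Real.exp_pos _
  have hcn0 : 0 ≤ c * n := by positivity
  have hδ1 : δ ≤ 1 := Real.exp_le_one_iff.2 (by linarith)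
  set σ : ℝ := Real.sqrt (2 ^ m / (b : ℝ) ^ (w - 3)) with hσ
  have hσ0 : 0 ≤ σ := Real.sqrt_nonneg _
  have hθ0 : 0 ≤ θ := by positivity
  set W : ℝ := (b : ℝ) ^ m * 2 ^ (m * b) with hW
  have hW0 : 0 ≤ W := by positivity
  -- the convex combination of the constraints
  let I : Type := Option ({T : Finset (Fin (Δ * m)) // (T.card : ℝ) ≤ c * n} × Fin J)
  let f : (Fin m → Fin b) → I → ((E × Matrix (Fin r) (Fin r) ℝ) →ᵃ[ℝ] ℝ) := fun S i =>
    match i with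
    | none => AffineMap.const ℝ _ (1 : ℝ) - obj S
    | some j => cut j.1.1 j.2 S
  let 𝒦 : Set (E × Matrix (Fin r) (Fin r) ℝ) := {p | p ∈ 𝓐 ∧ p.2.PosSemidef}
  have h𝒦 : Convex ℝ 𝒦 := by
    rintro p ⟨hp1, hp2⟩ q ⟨hq1, hq2⟩ x y hx hy hxy
    exact ⟨𝓐.convex hp1 hq1 hx hy hxy, (hp2.smul hx).add (hq2.smul hy)⟩
  have hmm : ∀ S, ∃ α : I → ℝ, S ∈ 𝒮 → (∀ i, 0 ≤ α i) ∧ ∑ i, α i = 1 ∧
      ∀ p ∈ 𝒦, δ ≤ ∑ i, α i * f S i p := by
    intro S
    by_cases hS : S ∈ 𝒮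
    · have : Nonempty I := ⟨none⟩
      obtain ⟨α, hα1, hα2, hα3⟩ := minimax 𝒦 h𝒦 (f S) δ (fun p hp => by
        rcases hno S hS p hp.1 hp.2 with h4 | ⟨T, hT, k, h4⟩
        · refine ⟨none, ?_⟩
          change δ < 1 - obj S p
          linarith
        · exact ⟨some (⟨T, hT⟩, k), h4⟩)
      exact ⟨α, fun _ => ⟨hα1, hα2, hα3⟩⟩
    · exact ⟨0, fun h => absurd h hS⟩
  choose α hα using hmm
  have hα1 : ∀ S ∈ 𝒮, ∀ i, 0 ≤ α S i ∧ α S i ≤ 1 := by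
    intro S hS i
    obtain ⟨h4, h5, -⟩ := hα S hS
    refine ⟨h4 i, ?_⟩
    rw [← h5]
    exact Finset.single_le_sum (fun j _ => h4 j) (Finset.mem_univ i)
  set G : (Fin m → Fin b) → (Fin m × Fin b → Bool) → ℝ := fun S x =>
    ∑ i, α S i * f S i (pt x) with hG
  -- the factorisation
  set τ : ℝ := δ * γ' / (8 * 2 ^ m) with hτ
  have hτ0 : 0 < τ := by positivity
  have hτ1 : τ ≤ 1 / 4 := by
    rw [hτ, div_le_iff₀ (by positivity)]
    have h10 : (1 : ℝ) ≤ 2 ^ m := one_le_pow₀ (by norm_num)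
    have h11 : δ * γ' ≤ 1 := mul_le_one₀ hδ1 hγ'.le hγ'1
    linarith
  have hτ2 : 2 ^ m * τ = δ * γ' / 8 := by
    rw [hτ]
    field_simp
  obtain ⟨P₀, Q, hP₀, hQ, hP0, hQ0, hPQ⟩ := factor5 𝓐 δ 𝒳 pt hpt 𝒮
    (fun S => ∑ i, α S i • f S i) G
    (fun S _ x _ => sum_affine _ _ _ _)
    (fun S hS p hp hp2 => by
      rw [sum_affine]
      exact (hα S hS).2.2 p ⟨hp, hp2⟩) τ hτ0
  have hfnone : ∀ S ∈ 𝒮, ∀ x ∈ 𝒳, f S none (pt x) = gg a s (rs S x) := by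
    intro S hS x hx
    rw [gg_eq]
    change 1 - obj S (pt x) = _
    rw [hval S hS x hx]
    ring
  have hlow : ∀ B : Finset (Fin m), B.card < w - 3 →
      coef B (fun y => D y * gg a s y) = 0 := by
    intro B hB
    exact coef_gg_low D a s hD4 B (by omega)
  have hlowv : ∀ e, ∀ B : Finset (Fin m), B.card < w - 3 →
      coef B (fun y => D y * vv (a e) (s e) y) = 0 := by
    intro e B hB
    exact coef_vv_low D (a e) (s e) (hD4 e) B (by omega)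
  -- the marginals
  have hmarg : ∀ F : (Fin m → Bool) → ℝ, (∀ B : Finset (Fin m), B.card < w - 3 → coef B F = 0) →
      (∀ B, |coef B F| ≤ 1) → ∀ u : (Fin m × Fin b → Bool) → ℝ, (∀ x, |u x| ≤ 1) →
      ∀ (𝒢 : Finset (Fin m → Fin b)) (v : (Fin m → Fin b) → ℝ), (∀ S ∈ 𝒢, 0 ≤ v S ∧ v S ≤ 1) →
      ∑ S ∈ 𝒢, v S * ∑ x, u x * F (rs S x) ≤ σ * W := by
    intro F hF1 hF2 u hu 𝒢 v hv
    refine (margw hb u hu F (hF1 ∅ (by rw [Finset.card_empty]; omega)) 𝒢 v hv).trans ?_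
    rw [mul_comm σ, hW]
    refine mul_le_mul_of_nonneg_left (Real.sqrt_le_sqrt ?_) (by positivity)
    have h14 := var_le (k := w - 3) hb 0 F (fun B hB => by rw [hF1 B hB, abs_zero]) hF2
    refine h14.trans (le_of_eq ?_)
    ring
  have hrect' : ∀ (u : (Fin m × Fin b → Bool) → ℝ) (v : (Fin m → Fin b) → ℝ),
      (∀ x, 0 ≤ u x ∧ u x ≤ 1) → (∀ S, 0 ≤ v S ∧ v S ≤ 1) →
      -(θ * W) ≤ ∑ S, ∑ x, v S * (u x * D (rs S x)) := by
    intro u v hu hv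
    have h6 := rect4 (m := m) (d := d) hb lam (2 ^ m) hlam hlb h2pos D hD2 hD5 u hu v hv
    refine le_trans (neg_le_neg (le_of_eq ?_)) h6
    rw [hθ, hW]
    ring
  set w' : ℕ := ⌊c * n⌋₊ with hw'
  have hw'1 : (w' : ℝ) ≤ c * n := Nat.floor_le hcn0
  have ht1 : (1 : ℝ) ≤ 12 * Δ := by
    have : (1 : ℝ) ≤ Δ := by exact_mod_cast hΔ
    linarith
  set B₀ : ℝ := (b : ℝ) ^ (3 * w') * (θ + w' * σ) with hB₀
  have hB₀0 : 0 ≤ B₀ := by positivity
  -- one constraint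
  have hone : ∀ 𝒢 ⊆ 𝒮, ∀ j : {T : Finset (Fin (Δ * m)) // (T.card : ℝ) ≤ c * n} × Fin J,
      ∑ S ∈ 𝒢, α S (some j) * ∑ x ∈ 𝒳, D (rs S x) * cut j.1.1 j.2 S (pt x) ≤ B₀ * W := by
    intro 𝒢 h𝒢 j
    refine (cut_le hb hθ0 hσ0 D a s hrect'
      (fun e u hu 𝒢 v hv => hmarg _ (hlowv e) (coef_vv_le D hD1 (a e) (s e)) u hu 𝒢 v hv)
      j.1.1 (fun S x => cut j.1.1 j.2 S (pt x)) 𝒳
      (fun S S' h x => by rw [hcut1 _ _ S S' h]) (fun S x hx => hcut2 _ _ S x hx)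
      (fun S x hx h => hcut3 _ _ S x hx h) 𝒢 (fun S => α S (some j))
      (fun S hS => hα1 S (h𝒢 hS) _)).trans ?_
    have h4 : j.1.1.card ≤ w' := Nat.le_floor j.1.2
    have h5 : (j.1.1.card : ℝ) ≤ w' := by exact_mod_cast h4
    refine mul_le_mul_of_nonneg_right ?_ hW0
    rw [hB₀]
    have h6 : (b : ℝ) ^ (3 * j.1.1.card) ≤ (b : ℝ) ^ (3 * w') :=
      pow_le_pow_right₀ hb1 (by omega)
    gcongr
  refine main5 (m := m) (b := b) (r := r + 1) (d := d) hb (Nat.succ_pos r) lam (2 ^ m)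
    γ' δ τ (σ + ((12 * (Δ : ℝ)) ^ w' * (1 + 1 / (12 * (Δ : ℝ))) ^ (Δ * m)) * J * B₀)
    hlam hlb h2pos hγ' hγ'1 hδ hτ0.le hτ1 D hD2 hD5 hDsum 𝒳 𝒮 G ?_ ?_ hrect.le
    P₀ hP₀ Q hQ hP0 hQ0 hPQ ?_
  · intro S hS x hx
    obtain ⟨h4, h5, -⟩ := hα S hS
    have h6 : ∀ i, f S i (pt x) ≤ 1 := by
      intro i
      cases i with
      | none =>
        rw [hfnone S hS x hx]
        exact gg_le_one hM a s _
      | some j => exact (le_abs_self _).trans (hcut2 _ _ S x hx)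
    calc G S x ≤ ∑ i, α S i * 1 :=
          Finset.sum_le_sum fun i _ => mul_le_mul_of_nonneg_left (h6 i) (h4 i)
      _ = 1 := by
          simp only [mul_one]
          exact h5
  · intro 𝒢 h𝒢
    have e1 : ∑ S ∈ 𝒢, ∑ x ∈ 𝒳, D (rs S x) * G S x
        = ∑ i, ∑ S ∈ 𝒢, α S i * ∑ x ∈ 𝒳, D (rs S x) * f S i (pt x) := by
      conv_rhs => rw [Finset.sum_comm]
      refine Finset.sum_congr rfl fun S _ => ?_
      have e2 : ∀ i, α S i * ∑ x ∈ 𝒳, D (rs S x) * f S i (pt x)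
          = ∑ x ∈ 𝒳, α S i * (D (rs S x) * f S i (pt x)) := fun i => Finset.mul_sum _ _ _
      rw [Finset.sum_congr rfl fun i _ => e2 i, Finset.sum_comm]
      refine Finset.sum_congr rfl fun x _ => ?_
      rw [hG, Finset.mul_sum]
      exact Finset.sum_congr rfl fun i _ => by ring
    rw [e1, Fintype.sum_option]
    have e3 : ∑ S ∈ 𝒢, α S none * ∑ x ∈ 𝒳, D (rs S x) * f S none (pt x) ≤ σ * W := by
      refine le_trans (le_of_eq ?_) (hmarg _ hlow (coef_gg_le hM D hD1 a s)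
        (fun x => if x ∈ 𝒳 then 1 else 0) (fun x => by split_ifs <;> norm_num) 𝒢
        (fun S => α S none) fun S hS => hα1 S (h𝒢 hS) _)
      refine Finset.sum_congr rfl fun S hS => ?_
      congr 1
      simp only [ite_mul, one_mul, zero_mul]
      rw [Finset.sum_ite_mem, Finset.univ_inter]
      exact Finset.sum_congr rfl fun x hx => by rw [hfnone S (h𝒢 hS) x hx]
    have e4 : ∑ j, ∑ S ∈ 𝒢, α S (some j) * ∑ x ∈ 𝒳, D (rs S x) * f S (some j) (pt x)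
        ≤ ((12 * (Δ : ℝ)) ^ w' * (1 + 1 / (12 * (Δ : ℝ))) ^ (Δ * m)) * J * (B₀ * W) := by
      refine (Finset.sum_le_sum fun j _ => hone 𝒢 h𝒢 j).trans ?_
      rw [Finset.sum_const, nsmul_eq_mul, Finset.card_univ, Fintype.card_prod, Fintype.card_fin,
        Nat.cast_mul]
      refine mul_le_mul_of_nonneg_right ?_ (by positivity)
      refine mul_le_mul_of_nonneg_right ?_ (Nat.cast_nonneg _)
      refine le_trans ?_ (card_small (M := Δ * m) (w := w') (12 * (Δ : ℝ)) ht1)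
      rw [Fintype.card_subtype]
      refine Nat.cast_le.2 (Finset.card_le_card fun T hT => ?_)
      rw [Finset.mem_filter] at hT ⊢
      exact ⟨Finset.mem_univ _, Nat.le_floor hT.2⟩
    calc _ ≤ σ * W + ((12 * (Δ : ℝ)) ^ w' * (1 + 1 / (12 * (Δ : ℝ))) ^ (Δ * m)) * J * (B₀ * W) :=
          add_le_add e3 e4
      _ = _ := by ring
  · rw [hτ2]
    exact (hfin d (w - 3) (r + 1) hβd hβk (Nat.succ_pos r) (by push_cast; linarith)).2.2 J w'
      hJ hw'1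

end AV
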