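import Pool.Agent.AV.Vv
import Pool.Agent.AV.Main5

/-!
# AV: the pseudo-measure nearly satisfies all constraints which are valid for the assignments that
satisfy a small set of clauses
-/

set_option autoImplicit false

open scoped BigOperators

namespace AV

open Finset SDX BB

section
variable {m b M : ℕ}

/-- the variables of a set of clauses -/
def vt (a : Fin M → (Fin 3 ↪ Fin m)) (T : Finset (Fin M)) : Finset (Fin m) :=
  T.biUnion fun e => vs (a e)

theorem card_vt (a : Fin M → (Fin 3 ↪ Fin m)) (T : Finset (Fin M)) :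
    (vt a T).card ≤ 3 * T.card := by
  rw [mul_comm]
  exact card_biUnion_le_card_mul T _ 3 fun e _ => (card_vs _).le

theorem mem_vt {a : Fin M → (Fin 3 ↪ Fin m)} {T : Finset (Fin M)} {e : Fin M} (he : e ∈ T)
    (t : Fin 3) : a e t ∈ vt a T :=
  mem_biUnion.2 ⟨e, he, mem_vs.2 ⟨t, rfl⟩⟩

/-- the restriction of `S` to the variables of `T` -/
def rst (hb : 0 < b) (a : Fin M → (Fin 3 ↪ Fin m)) (T : Finset (Fin M)) (S : Fin m → Fin b) :
    Fin m → Fin b := fun j => if j ∈ vt a T then S j else ⟨0, hb⟩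

theorem card_rst (hb : 0 < b) (a : Fin M → (Fin 3 ↪ Fin m)) (T : Finset (Fin M))
    (𝒢 : Finset (Fin m → Fin b)) : (𝒢.image (rst hb a T)).card ≤ b ^ (3 * T.card) := by
  classical
  have h1 : 𝒢.image (rst hb a T) ⊆
      Fintype.piFinset fun j : Fin m => if j ∈ vt a T then univ else {⟨0, hb⟩} := by
    intro q hq
    obtain ⟨S, -, rfl⟩ := mem_image.1 hq
    rw [Fintype.mem_piFinset]
    intro j
    rw [rst]
    split_ifs
    · exact mem_univ _
    · exact mem_singleton_self _
  refine (card_le_card h1).trans ?_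
  rw [Fintype.card_piFinset]
  have h2 : ∀ j : Fin m, (if j ∈ vt a T then (univ : Finset (Fin b)) else {⟨0, hb⟩}).card
      = if j ∈ vt a T then b else 1 := by
    intro j
    split_ifs
    · rw [card_univ, Fintype.card_fin]
    · rw [card_singleton]
  rw [prod_congr rfl fun j _ => h2 j, prod_ite, prod_const, prod_const_one, mul_one]
  refine Nat.pow_le_pow_right hb (le_trans (card_le_card ?_) (card_vt a T))
  intro j hj
  exact (mem_filter.1 hj).2

/-- **one constraint** -/
theorem cut_le (hb : 0 < b) {θ σ : ℝ} (hθ : 0 ≤ θ) (hσ : 0 ≤ σ) (D : (Fin m → Bool) → ℝ)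
    (a : Fin M → (Fin 3 ↪ Fin m)) (s : Fin M → Fin 3 → Bool)
    (hrect : ∀ (u : (Fin m × Fin b → Bool) → ℝ) (v : (Fin m → Fin b) → ℝ),
      (∀ x, 0 ≤ u x ∧ u x ≤ 1) → (∀ S, 0 ≤ v S ∧ v S ≤ 1) →
      -(θ * ((b : ℝ) ^ m * 2 ^ (m * b))) ≤ ∑ S, ∑ x, v S * (u x * D (rs S x)))
    (hvv : ∀ (e : Fin M) (u : (Fin m × Fin b → Bool) → ℝ), (∀ x, |u x| ≤ 1) →
      ∀ (𝒢 : Finset (Fin m → Fin b)) (v : (Fin m → Fin b) → ℝ), (∀ S ∈ 𝒢, 0 ≤ v S ∧ v S ≤ 1) →
      ∑ S ∈ 𝒢, v S * ∑ x, u x * (D (rs S x) * vv (a e) (s e) (rs S x))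
        ≤ σ * ((b : ℝ) ^ m * 2 ^ (m * b)))
    (T : Finset (Fin M)) (H : (Fin m → Fin b) → (Fin m × Fin b → Bool) → ℝ)
    (𝒳 : Finset (Fin m × Fin b → Bool))
    (h1 : ∀ S S', (∀ e ∈ T, ∀ t, S (a e t) = S' (a e t)) → ∀ x, H S x = H S' x)
    (h2 : ∀ S, ∀ x ∈ 𝒳, |H S x| ≤ 1)
    (h3 : ∀ S, ∀ x ∈ 𝒳, (∀ e ∈ T, ∃ i, rs S x (a e i) = s e i) → H S x ≤ 0)
    (𝒢 : Finset (Fin m → Fin b)) (v : (Fin m → Fin b) → ℝ) (hv : ∀ S ∈ 𝒢, 0 ≤ v S ∧ v S ≤ 1) :
    ∑ S ∈ 𝒢, v S * ∑ x ∈ 𝒳, D (rs S x) * H S x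
      ≤ (b : ℝ) ^ (3 * T.card) * (θ + T.card * σ) * ((b : ℝ) ^ m * 2 ^ (m * b)) := by
  classical
  set W : ℝ := (b : ℝ) ^ m * 2 ^ (m * b) with hW
  have hW0 : 0 ≤ W := by positivity
  have hone : ∀ q ∈ 𝒢.image (rst hb a T),
      ∑ S ∈ 𝒢.filter (fun S => rst hb a T S = q), v S * ∑ x ∈ 𝒳, D (rs S x) * H S x
        ≤ (θ + T.card * σ) * W := by
    intro q _
    set 𝒢q := 𝒢.filter (fun S => rst hb a T S = q) with h𝒢q
    have hq : ∀ S ∈ 𝒢q, ∀ e ∈ T, ∀ t, S (a e t) = q (a e t) := by
      intro S hS e he t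
      rw [← (mem_filter.1 hS).2, rst, if_pos (mem_vt he t)]
    set sat : (Fin m × Fin b → Bool) → Prop := fun x =>
      ∀ e ∈ T, ∃ i, rs q x (a e i) = s e i with hsat
    set h : (Fin m × Fin b → Bool) → ℝ := fun x => if x ∈ 𝒳 then H q x else 0 with hh
    have hh1 : ∀ x, |h x| ≤ 1 := by
      intro x
      simp only [hh]
      split_ifs with hx
      · exact h2 q x hx
      · norm_num
    set u : (Fin m × Fin b → Bool) → ℝ := fun x => if sat x then -h x else 0 with hu
    have hu1 : ∀ x, 0 ≤ u x ∧ u x ≤ 1 := by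
      intro x
      have h4 := abs_le.1 (hh1 x)
      simp only [hu]
      split_ifs with hx
      · refine ⟨?_, by linarith⟩
        simp only [hh]
        split_ifs with hx2
        · have := h3 q x hx2 hx
          linarith
        · norm_num
      · norm_num
    set w : Fin M → (Fin m × Fin b → Bool) → ℝ := fun e x =>
      if ∀ e' ∈ T, e' < e → ∃ i, rs q x (a e' i) = s e' i then h x else 0 with hw
    have hw1 : ∀ e x, |w e x| ≤ 1 := by
      intro e x
      simp only [hw]
      split_ifs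
      · exact hh1 x
      · norm_num
    have hvq : ∀ S ∈ 𝒢q, ∀ x, ∀ e ∈ T, vv (a e) (s e) (rs S x)
        = if ∀ i, rs q x (a e i) ≠ s e i then 1 else 0 := by
      intro S hS x e he
      rw [vv_eq]
      have h4 : ∀ i, rs S x (a e i) = rs q x (a e i) := by
        intro i
        change x (a e i, S (a e i)) = x (a e i, q (a e i))
        rw [hq S hS e he i]
      simp only [h4]
    have hid : ∀ S ∈ 𝒢q, ∀ x, h x = -u x + ∑ e ∈ T, vv (a e) (s e) (rs S x) * w e x := by
      intro S hS x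
      rw [sum_congr rfl fun e he => by rw [hvq S hS x e he]]
      by_cases hx : sat x
      · rw [sum_eq_zero fun e he => ?_]
        · simp only [hu]
          rw [if_pos hx]
          ring
        · rw [if_neg, zero_mul]
          push Not
          exact hx e he
      · simp only [hu]
        rw [if_neg hx, neg_zero, zero_add]
        have h4 : (T.filter fun e => ∀ i, rs q x (a e i) ≠ s e i).Nonempty := by
          simp only [hsat] at hx
          push Not at hx
          obtain ⟨e, he, h5⟩ := hx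
          exact ⟨e, mem_filter.2 ⟨he, h5⟩⟩
        obtain ⟨he1, he2⟩ := mem_filter.1 (min'_mem _ h4)
        set e₀ := (T.filter fun e => ∀ i, rs q x (a e i) ≠ s e i).min' h4 with he₀
        rw [sum_eq_single_of_mem e₀ he1]
        · rw [if_pos he2, one_mul]
          simp only [hw]
          rw [if_pos]
          intro e' he' hlt
          by_contra hcon
          push Not at hcon
          have h5 : e₀ ≤ e' := (T.filter fun e => ∀ i, rs q x (a e i) ≠ s e i).min'_le e'
            (mem_filter.2 ⟨he', hcon⟩)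
          exact absurd hlt (not_lt.2 h5)
        · intro e he hne
          by_cases h5 : ∀ i, rs q x (a e i) ≠ s e i
          · have h6 : e₀ < e := lt_of_le_of_ne (min'_le _ e (mem_filter.2 ⟨he, h5⟩)) hne.symm
            simp only [hw]
            rw [if_neg (c := ∀ e' ∈ T, e' < e → ∃ i, rs q x (a e' i) = s e' i), mul_zero]
            intro h7
            obtain ⟨i, hi⟩ := h7 e₀ he1 h6
            exact he2 i hi
          · rw [if_neg h5, zero_mul]
    have e1 : ∑ S ∈ 𝒢q, v S * ∑ x ∈ 𝒳, D (rs S x) * H S x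
        = -(∑ S, ∑ x, (if S ∈ 𝒢q then v S else 0) * (u x * D (rs S x)))
          + ∑ e ∈ T, ∑ S ∈ 𝒢q, v S * ∑ x, w e x * (D (rs S x) * vv (a e) (s e) (rs S x)) := by
      rw [sum_comm (s := T)]
      have e2 : ∑ S, ∑ x, (if S ∈ 𝒢q then v S else 0) * (u x * D (rs S x))
          = ∑ S ∈ 𝒢q, v S * ∑ x, u x * D (rs S x) := by
        rw [← sum_filter_add_sum_filter_not univ (fun S => S ∈ 𝒢q)]
        have e3 : ∑ S ∈ univ.filter (fun S => ¬ S ∈ 𝒢q), ∑ x,
            (if S ∈ 𝒢q then v S else 0) * (u x * D (rs S x)) = 0 := by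
          refine sum_eq_zero fun S hS => ?_
          rw [mem_filter] at hS
          simp [hS.2]
        have e4 : univ.filter (fun S => S ∈ 𝒢q) = 𝒢q := by
          ext S
          simp
        rw [e3, add_zero, e4]
        refine sum_congr rfl fun S hS => ?_
        rw [mul_sum]
        refine sum_congr rfl fun x _ => ?_
        rw [if_pos hS]
      rw [e2, ← sum_neg_distrib, ← sum_add_distrib]
      refine sum_congr rfl fun S hS => ?_
      rw [← mul_sum, neg_mul_eq_mul_neg, ← mul_add]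
      congr 1
      rw [sum_comm (s := T), ← sum_neg_distrib, ← sum_add_distrib]
      have e3 : ∑ x ∈ 𝒳, D (rs S x) * H S x = ∑ x, D (rs S x) * h x := by
        simp only [hh, mul_ite, mul_zero]
        rw [sum_ite_mem, univ_inter]
        refine sum_congr rfl fun x _ => ?_
        rw [h1 S q (hq S hS)]
      rw [e3]
      refine sum_congr rfl fun x _ => ?_
      rw [hid S hS x, mul_add, mul_sum]
      congr 1
      · ring
      · exact sum_congr rfl fun e _ => by ring
    rw [e1]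
    have e5 := hrect u (fun S => if S ∈ 𝒢q then v S else 0) hu1 (fun S => by
      split_ifs with hS
      · exact hv S (mem_filter.1 hS).1
      · norm_num)
    have e6 : ∑ e ∈ T, ∑ S ∈ 𝒢q, v S * ∑ x, w e x * (D (rs S x) * vv (a e) (s e) (rs S x))
        ≤ ∑ _e ∈ T, σ * W :=
      sum_le_sum fun e _ => hvv e (w e) (hw1 e) 𝒢q v fun S hS => hv S (mem_filter.1 hS).1
    rw [sum_const, nsmul_eq_mul] at e6
    calc _ ≤ θ * W + T.card * (σ * W) := by linarith
      _ = (θ + T.card * σ) * W := by ring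
  rw [← sum_fiberwise_of_maps_to (t := 𝒢.image (rst hb a T)) (g := rst hb a T)
    fun S hS => mem_image_of_mem _ hS]
  refine (sum_le_sum hone).trans ?_
  rw [sum_const, nsmul_eq_mul]
  have h4 : ((𝒢.image (rst hb a T)).card : ℝ) ≤ (b : ℝ) ^ (3 * T.card) := by
    exact_mod_cast card_rst hb a T 𝒢
  have h5 : 0 ≤ (θ + T.card * σ) * W := by positivity
  calc _ ≤ (b : ℝ) ^ (3 * T.card) * ((θ + T.card * σ) * W) := mul_le_mul_of_nonneg_right h4 h5
    _ = _ := by ring

/-- the number of small sets -/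
theorem card_small {w : ℕ} (t : ℝ) (ht : 1 ≤ t) :
    (((univ : Finset (Finset (Fin M))).filter fun T => T.card ≤ w).card : ℝ)
      ≤ t ^ w * (1 + 1 / t) ^ M := by
  have ht0 : 0 < t := by linarith
  have h1 : ∑ T : Finset (Fin M), (1 / t) ^ T.card = (1 + 1 / t) ^ M := by
    have := sum_pow_mul_eq_add_pow (1 / t) 1 (univ : Finset (Fin M))
    simp only [one_pow, mul_one, card_univ, Fintype.card_fin, powerset_univ] at this
    rw [this, add_comm]
  rw [← h1, mul_sum, card_eq_sum_ones, Nat.cast_sum]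
  refine (sum_le_sum (fun T hT => ?_)).trans
    (sum_le_univ_sum_of_nonneg fun T => by positivity)
  rw [mem_filter] at hT
  rw [Nat.cast_one]
  calc (1 : ℝ) = t ^ T.card * (1 / t) ^ T.card := by
        rw [← mul_pow, mul_one_div_cancel ht0.ne', one_pow]
    _ ≤ t ^ w * (1 / t) ^ T.card :=
        mul_le_mul_of_nonneg_right (pow_le_pow_right₀ ht hT.2) (by positivity)

end

end AV
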