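import Mathlib

/-!
# AV: averages over the injections and over the permutations
-/

set_option autoImplicit false

open scoped BigOperators

namespace AV

/-- each injection extends to a permutation -/
theorem exists_perm {m n : ℕ} (V f : Fin m ↪ Fin n) :
    ∃ σ : Equiv.Perm (Fin n), ∀ j, σ (V j) = f j := by
  classical
  let e : {x // x ∈ Set.range V} ≃ {x // x ∈ Set.range f} :=
    (Equiv.ofInjective V V.injective).symm.trans (Equiv.ofInjective f f.injective)
  refine ⟨e.extendSubtype, fun j => ?_⟩
  rw [Equiv.extendSubtype_apply_of_mem e (V j) ⟨j, rfl⟩]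
  simp only [e, Equiv.trans_apply]
  have h1 : (Equiv.ofInjective V V.injective).symm ⟨V j, ⟨j, rfl⟩⟩ = j :=
    Equiv.ofInjective_symm_apply V.injective j
  rw [h1]
  rfl

/-- the average over the permutations is the average over the injections -/
theorem sum_emb {m n : ℕ} (V : Fin m ↪ Fin n) (H : (Fin m ↪ Fin n) → ℝ) :
    (Fintype.card (Fin m ↪ Fin n) : ℝ) * ∑ π : Equiv.Perm (Fin n), H (V.trans π.toEmbedding)
      = n.factorial * ∑ f, H f := by
  have h1 : ∀ π : Equiv.Perm (Fin n), ∑ f : Fin m ↪ Fin n, H (f.trans π.toEmbedding)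
      = ∑ f, H f := by
    intro π
    have := Equiv.sum_comp (Equiv.embeddingCongr (Equiv.refl (Fin m)) π) H
    rw [← this]
    refine Finset.sum_congr rfl fun f _ => ?_
    congr 1
  have h2 : ∀ f : Fin m ↪ Fin n, ∑ π : Equiv.Perm (Fin n), H (f.trans π.toEmbedding)
      = ∑ π : Equiv.Perm (Fin n), H (V.trans π.toEmbedding) := by
    intro f
    obtain ⟨σ, hσ⟩ := exists_perm V f
    rw [← Equiv.sum_comp (Equiv.mulRight σ) fun π => H (V.trans π.toEmbedding)]
    refine Finset.sum_congr rfl fun π _ => ?_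
    congr 1
    ext j
    simp only [Function.Embedding.trans_apply, Equiv.coe_toEmbedding, Equiv.coe_mulRight,
      Equiv.Perm.coe_mul, Function.comp_apply, hσ]
  have h3 : ∑ f : Fin m ↪ Fin n, ∑ π : Equiv.Perm (Fin n), H (f.trans π.toEmbedding)
      = ∑ π : Equiv.Perm (Fin n), ∑ f : Fin m ↪ Fin n, H (f.trans π.toEmbedding) :=
    Finset.sum_comm
  rw [Finset.sum_congr rfl fun f _ => h2 f, Finset.sum_congr rfl fun π _ => h1 π,
    Finset.sum_const, Finset.sum_const, Finset.card_univ, Finset.card_univ, Fintype.card_perm,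
    Fintype.card_fin, nsmul_eq_mul, nsmul_eq_mul] at h3
  exact h3

end AV
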