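import Pool.Agent.Helper8.LIFT.PseudoXor

/-!
# AV: random systems of triples (counting)

A system `a : Fin M → (Fin 3 ↪ Fin m)`, all systems have the same probability.
-/

set_option autoImplicit false

open scoped BigOperators

namespace AV

open Finset SDX SDX.h8

variable {M m : ℕ}

/-- the set of the variables of a triple -/
def vs (f : Fin 3 ↪ Fin m) : Finset (Fin m) := univ.map f

theorem card_vs (f : Fin 3 ↪ Fin m) : (vs f).card = 3 := by
  rw [vs, card_map, card_univ, Fintype.card_fin]

theorem mem_vs {f : Fin 3 ↪ Fin m} {v : Fin m} : v ∈ vs f ↔ ∃ t, f t = v := by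
  simp [vs]

/-- the number of functions with values in `G` on `C` -/
theorem card_pi_on {X : Type} [Fintype X] [DecidableEq X] (C : Finset (Fin M)) (G : Finset X) :
    (Fintype.piFinset fun e : Fin M => if e ∈ C then G else univ).card
      = G.card ^ C.card * Fintype.card X ^ (M - C.card) := by
  rw [Fintype.card_piFinset]
  have h : ∀ e : Fin M, (if e ∈ C then G else (univ : Finset X)).card
      = if e ∈ C then G.card else Fintype.card X := by
    intro e
    split_ifs
    · rfl
    · rw [card_univ]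
  rw [prod_congr rfl fun e _ => h e, prod_ite, prod_const, prod_const]
  have h1 : (univ.filter fun e : Fin M => e ∈ C) = C := by
    ext e
    simp
  have h2 : (univ.filter fun e : Fin M => ¬ e ∈ C).card = M - C.card := by
    have h3 : (univ.filter fun e : Fin M => ¬ e ∈ C) = Cᶜ := by
      ext e
      simp
    rw [h3, card_compl, Fintype.card_fin]
  rw [h1, h2]

/-- the same with a bound of the fraction -/
theorem card_pi_on_le {X : Type} [Fintype X] [DecidableEq X] (C : Finset (Fin M)) (G : Finset X)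
    (x : ℝ) (hx : 0 ≤ x) (hG : (G.card : ℝ) ≤ x * Fintype.card X) :
    ((Fintype.piFinset fun e : Fin M => if e ∈ C then G else univ).card : ℝ)
      ≤ x ^ C.card * (Fintype.card X : ℝ) ^ M := by
  have hC : C.card ≤ M := (card_le_univ C).trans (by rw [Fintype.card_fin])
  rw [card_pi_on]
  push_cast
  calc (G.card : ℝ) ^ C.card * (Fintype.card X : ℝ) ^ (M - C.card)
      ≤ (x * Fintype.card X) ^ C.card * (Fintype.card X : ℝ) ^ (M - C.card) :=
        mul_le_mul_of_nonneg_right (pow_le_pow_left₀ (Nat.cast_nonneg _) hG _) (by positivity)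
    _ = x ^ C.card * ((Fintype.card X : ℝ) ^ C.card * (Fintype.card X : ℝ) ^ (M - C.card)) := by
        rw [mul_pow]
        ring
    _ = x ^ C.card * (Fintype.card X : ℝ) ^ M := by
        rw [← pow_add]
        congr 2
        omega

theorem descFactorial_le (x y : ℕ) (hx : 3 ≤ x) (hxy : x ≤ y) :
    (x.descFactorial 3 : ℝ) ≤ ((x : ℝ) / y) ^ 3 * y.descFactorial 3 := by
  obtain ⟨u, rfl⟩ := Nat.exists_eq_add_of_le hx
  obtain ⟨k, rfl⟩ := Nat.exists_eq_add_of_le hxy
  have e1 : (3 + u).descFactorial 3 = (3 + u) * (2 + u) * (1 + u) := by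
    simp only [Nat.descFactorial_succ, Nat.descFactorial_zero, mul_one]
    have a1 : 3 + u - 2 = 1 + u := by omega
    have a2 : 3 + u - 1 = 2 + u := by omega
    rw [a1, a2, Nat.sub_zero]
    ring
  have e2 : (3 + u + k).descFactorial 3 = (3 + u + k) * (2 + u + k) * (1 + u + k) := by
    simp only [Nat.descFactorial_succ, Nat.descFactorial_zero, mul_one]
    have a1 : 3 + u + k - 2 = 1 + u + k := by omega
    have a2 : 3 + u + k - 1 = 2 + u + k := by omega
    rw [a1, a2, Nat.sub_zero]
    ring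
  rw [e1, e2]
  push_cast
  rw [div_pow, div_mul_eq_mul_div, le_div_iff₀ (by positivity)]
  have hu0 : (0 : ℝ) ≤ u := Nat.cast_nonneg u
  have hk0 : (0 : ℝ) ≤ k := Nat.cast_nonneg k
  have f1 : (2 + (u : ℝ)) * (3 + u + k) ≤ (3 + u) * (2 + u + k) := by nlinarith
  have f2 : (1 + (u : ℝ)) * (3 + u + k) ≤ (3 + u) * (1 + u + k) := by nlinarith
  calc (3 + (u : ℝ)) * (2 + u) * (1 + u) * (3 + u + k) ^ 3
      = (3 + u) * (3 + u + k) * (((2 + u) * (3 + u + k)) * ((1 + u) * (3 + u + k))) := by ring
    _ ≤ (3 + u) * (3 + u + k) * (((3 + u) * (2 + u + k)) * ((3 + u) * (1 + u + k))) := by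
        refine mul_le_mul_of_nonneg_left ?_ (by positivity)
        exact mul_le_mul f1 f2 (by positivity) (by positivity)
    _ = (3 + (u : ℝ)) ^ 3 * ((3 + u + k) * (2 + u + k) * (1 + u + k)) := by ring

/-- the triples inside `U` -/
theorem card_in (U : Finset (Fin m)) :
    ((univ.filter fun f : Fin 3 ↪ Fin m => ∀ t, f t ∈ U).card : ℝ)
      ≤ ((U.card : ℝ) / m) ^ 3 * Fintype.card (Fin 3 ↪ Fin m) := by
  classical
  have h1 : (univ.filter fun f : Fin 3 ↪ Fin m => ∀ t, f t ∈ U).card
      = Fintype.card (Fin 3 ↪ U) := by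
    rw [← Fintype.card_subtype]
    refine Fintype.card_congr
      { toFun := fun f => ⟨fun t => ⟨f.1 t, f.2 t⟩, fun s t h => f.1.injective (by simpa using h)⟩
        invFun := fun g => ⟨g.trans (Function.Embedding.subtype _), fun t => (g t).2⟩
        left_inv := fun f => by
          ext t
          rfl
        right_inv := fun g => by
          ext t
          rfl }
  rw [h1, Fintype.card_embedding_eq, Fintype.card_embedding_eq, Fintype.card_coe, Fintype.card_fin,
    Fintype.card_fin]
  have hU : U.card ≤ m := (card_le_univ U).trans (by rw [Fintype.card_fin])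
  rcases Nat.lt_or_ge U.card 3 with h | h
  · rw [Nat.descFactorial_of_lt h, Nat.cast_zero]
    positivity
  exact descFactorial_le _ _ h hU

/-- the triples with a given entry -/
theorem card_at (t : Fin 3) (v : Fin m) :
    m * (univ.filter fun f : Fin 3 ↪ Fin m => f t = v).card
      = Fintype.card (Fin 3 ↪ Fin m) := by
  classical
  have h1 : ∀ w : Fin m, (univ.filter fun f : Fin 3 ↪ Fin m => f t = w).card
      = (univ.filter fun f : Fin 3 ↪ Fin m => f t = v).card := by
    intro w
    refine card_bij (fun f _ => f.trans (Equiv.swap w v).toEmbedding) ?_ ?_ ?_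
    · intro f hf
      rw [mem_filter] at hf ⊢
      refine ⟨mem_univ _, ?_⟩
      simp [hf.2]
    · intro f _ g _ h
      refine DFunLike.ext _ _ fun s => ?_
      have := DFunLike.congr_fun h s
      simpa using this
    · intro f hf
      rw [mem_filter] at hf
      refine ⟨f.trans (Equiv.swap w v).toEmbedding, ?_, ?_⟩
      · rw [mem_filter]
        refine ⟨mem_univ _, ?_⟩
        simp [hf.2]
      · refine DFunLike.ext _ _ fun s => ?_
        simp
  have h2 := card_eq_sum_card_fiberwise (s := (univ : Finset (Fin 3 ↪ Fin m)))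
    (f := fun f => f t) (t := univ) (fun _ _ => mem_coe.mpr (mem_univ _))
  rw [card_univ] at h2
  rw [h2, sum_congr rfl fun w _ => h1 w, sum_const, card_univ, Fintype.card_fin, smul_eq_mul]

/-- the triples which meet `Z` -/
theorem card_touch (Z : Finset (Fin m)) :
    ((univ.filter fun f : Fin 3 ↪ Fin m => ∃ t, f t ∈ Z).card : ℝ)
      ≤ 3 * Z.card / m * Fintype.card (Fin 3 ↪ Fin m) := by
  classical
  rcases Nat.eq_zero_or_pos m with rfl | hm
  · have : (univ.filter fun f : Fin 3 ↪ Fin 0 => ∃ t, f t ∈ Z) = ∅ := by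
      rw [filter_eq_empty_iff]
      intro f _
      exact (f 0).elim0
    rw [this]
    simp
  have hm' : (0 : ℝ) < m := by exact_mod_cast hm
  have h1 : (univ.filter fun f : Fin 3 ↪ Fin m => ∃ t, f t ∈ Z)
      ⊆ (univ : Finset (Fin 3)).biUnion fun t => Z.biUnion fun v =>
        univ.filter fun f : Fin 3 ↪ Fin m => f t = v := by
    intro f hf
    obtain ⟨t, ht⟩ := (mem_filter.1 hf).2
    simp only [mem_biUnion, mem_univ, true_and, mem_filter]
    exact ⟨t, f t, ht, rfl⟩
  have h2 : ∀ t : Fin 3, ∀ v : Fin m, ((univ.filter fun f : Fin 3 ↪ Fin m => f t = v).card : ℝ)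
      = Fintype.card (Fin 3 ↪ Fin m) / m := by
    intro t v
    rw [eq_div_iff hm'.ne', mul_comm]
    exact_mod_cast card_at t v
  calc ((univ.filter fun f : Fin 3 ↪ Fin m => ∃ t, f t ∈ Z).card : ℝ)
      ≤ ∑ t : Fin 3, ∑ v ∈ Z, ((univ.filter fun f : Fin 3 ↪ Fin m => f t = v).card : ℝ) := by
        refine (Nat.cast_le.2 (card_le_card h1)).trans ?_
        refine (Nat.cast_le.2 card_biUnion_le).trans ?_
        rw [Nat.cast_sum]
        refine sum_le_sum fun t _ => ?_
        refine (Nat.cast_le.2 card_biUnion_le).trans ?_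
        rw [Nat.cast_sum]
    _ = 3 * Z.card / m * Fintype.card (Fin 3 ↪ Fin m) := by
        simp only [h2, sum_const, card_univ, Fintype.card_fin, nsmul_eq_mul]
        push_cast
        ring

/-! ### binomial coefficients -/

theorem choose_le (n k : ℕ) (hk : 0 < k) : (n.choose k : ℝ) ≤ (3 * n / k) ^ k := by
  have hk0 : (0 : ℝ) < k := by exact_mod_cast hk
  have h1 : (n.choose k : ℝ) ≤ (n : ℝ) ^ k / (k.factorial : ℝ) := Nat.choose_le_pow_div k n
  have h4 : (k : ℝ) ^ k / (k.factorial : ℝ) ≤ 3 ^ k := by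
    refine (Real.pow_div_factorial_le_exp _ hk0.le k).trans ?_
    rw [← Real.exp_one_pow]
    exact pow_le_pow_left₀ (Real.exp_pos _).le (by have := Real.exp_one_lt_d9; linarith) _
  have h5 : (n : ℝ) ^ k / (k.factorial : ℝ) = ((n : ℝ) / k) ^ k * ((k : ℝ) ^ k / k.factorial) := by
    rw [div_pow]
    field_simp
  rw [h5] at h1
  calc (n.choose k : ℝ) ≤ ((n : ℝ) / k) ^ k * ((k : ℝ) ^ k / k.factorial) := h1
    _ ≤ ((n : ℝ) / k) ^ k * 3 ^ k := mul_le_mul_of_nonneg_left h4 (by positivity)
    _ = (3 * n / k) ^ k := by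
        rw [← mul_pow]
        congr 1
        ring

/-- the numerical inequality of the first union bound -/
theorem num_expand {Δ k u : ℕ} (g : ℝ) (hg0 : 0 < g) (hg1 : g ≤ 1) (hm : 0 < m) (hk : 0 < k)
    (hu : u = 7 * k / 4) (hkg : 2 * (k : ℝ) ≤ g ^ 4 * m) :
    ((Δ * m).choose k : ℝ) * (m.choose u : ℝ) * (((u : ℝ) / m) ^ 3) ^ k ≤ (54 * Δ * g) ^ k := by
  have hm0 : (0 : ℝ) < m := by exact_mod_cast hm
  have hk0 : (0 : ℝ) < k := by exact_mod_cast hk
  have hu0 : 0 < u := by omega
  have hu0' : (0 : ℝ) < u := by exact_mod_cast hu0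
  have hu2 : u ≤ 2 * k := by omega
  have hu2' : (u : ℝ) ≤ 2 * k := by exact_mod_cast hu2
  have h1 := choose_le (Δ * m) k hk
  have h2 := choose_le m u hu0
  have e1 : ((3 : ℝ) * m / u) ^ u * (((u : ℝ) / m) ^ 3) ^ k
      = 3 ^ u * ((u : ℝ) / m) ^ (2 * k - u) * ((u : ℝ) / m) ^ k := by
    have a1 : ((3 : ℝ) * m / u) ^ u * ((u : ℝ) / m) ^ u = 3 ^ u := by
      rw [← mul_pow]
      congr 1
      field_simp
    have a2 : (((u : ℝ) / m) ^ 3) ^ k
        = ((u : ℝ) / m) ^ u * (((u : ℝ) / m) ^ (2 * k - u) * ((u : ℝ) / m) ^ k) := by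
      rw [← pow_mul, ← pow_add, ← pow_add]
      congr 1
      omega
    rw [a2, ← mul_assoc, a1]
    ring
  have e2 : ((u : ℝ) / m) ^ (2 * k - u) ≤ g ^ k := by
    calc ((u : ℝ) / m) ^ (2 * k - u) ≤ (g ^ 4) ^ (2 * k - u) := by
          refine pow_le_pow_left₀ (by positivity) ?_ _
          rw [div_le_iff₀ hm0]
          linarith
      _ = g ^ (4 * (2 * k - u)) := by rw [pow_mul]
      _ ≤ g ^ k := pow_le_pow_of_le_one hg0.le hg1 (by omega)
  calc ((Δ * m).choose k : ℝ) * (m.choose u : ℝ) * (((u : ℝ) / m) ^ 3) ^ k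
      ≤ (3 * ((Δ * m : ℕ) : ℝ) / k) ^ k * (3 * m / u) ^ u * (((u : ℝ) / m) ^ 3) ^ k := by
        refine mul_le_mul_of_nonneg_right ?_ (by positivity)
        exact mul_le_mul h1 h2 (Nat.cast_nonneg _) (by positivity)
    _ = (3 * ((Δ * m : ℕ) : ℝ) / k) ^ k * ((u : ℝ) / m) ^ k *
          (3 ^ u * ((u : ℝ) / m) ^ (2 * k - u)) := by
        rw [mul_assoc, e1]
        ring
    _ ≤ (3 * ((Δ * m : ℕ) : ℝ) / k) ^ k * ((2 * k : ℝ) / m) ^ k * (3 ^ (2 * k) * g ^ k) := by
        refine mul_le_mul ?_ ?_ (by positivity) (by positivity)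
        · refine mul_le_mul_of_nonneg_left ?_ (by positivity)
          refine pow_le_pow_left₀ (by positivity) ?_ _
          gcongr
        · exact mul_le_mul (pow_le_pow_right₀ (by norm_num) hu2) e2 (by positivity) (by positivity)
    _ = (54 * Δ * g) ^ k := by
        rw [pow_mul, ← mul_pow, ← mul_pow, ← mul_pow]
        congr 1
        push_cast
        field_simp
        ring

/-! ### degrees -/

/-- few vertices of odd degree imply few vertices -/
theorem two_card_le (A : Fin M → Finset (Fin m)) (hA : ∀ e, (A e).card = 3) (C : Finset (Fin M)) :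
    2 * (C.biUnion A).card ≤ 3 * C.card + (bsum A C).card := by
  classical
  have h1 : ∑ v : Fin m, (C.filter fun e => v ∈ A e).card = 3 * C.card := by
    have := sum_card_bipartiteAbove_eq_sum_card_bipartiteBelow (s := C) (t := (univ : Finset (Fin m)))
      (fun e v => v ∈ A e)
    simp only [bipartiteAbove, bipartiteBelow] at this
    rw [← this]
    have h2 : ∀ e ∈ C, ((univ : Finset (Fin m)).filter fun v => v ∈ A e).card = 3 := by
      intro e _
      rw [← hA e]
      congr 1
      ext v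
      simp
    rw [sum_congr rfl h2, sum_const, smul_eq_mul, mul_comm]
  have h2 : C.biUnion A = univ.filter fun v => 0 < (C.filter fun e => v ∈ A e).card := by
    ext v
    simp only [mem_biUnion, mem_filter, mem_univ, true_and, card_pos, Finset.Nonempty]
  rw [h2, ← h1, bsum, card_filter, card_filter, mul_sum, ← sum_add_distrib]
  refine sum_le_sum fun v _ => ?_
  rcases h : (C.filter fun e => v ∈ A e).card with _ | _ | n
  · simp
  · simp
  · rw [if_pos (by omega)]
    omega

end AV
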