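import Pool.Agent.AV.Rand

/-!
# AV: almost all systems of triples expand and have no small set which meets many triples
-/

set_option autoImplicit false

open scoped BigOperators

namespace AV

open Finset SDX SDX.h8

/-- the systems with all triples of `C` inside `U` -/
theorem card_box_in {M m : ℕ} (C : Finset (Fin M)) (U : Finset (Fin m)) :
    ((Fintype.piFinset fun e : Fin M => if e ∈ C then
      (univ.filter fun f : Fin 3 ↪ Fin m => ∀ t, f t ∈ U) else univ).card : ℝ)
      ≤ (((U.card : ℝ) / m) ^ 3) ^ C.card * (Fintype.card (Fin 3 ↪ Fin m) : ℝ) ^ M :=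
  card_pi_on_le C _ _ (by positivity) (card_in U)

/-- the systems with all triples of `C` touching `Z` -/
theorem card_box_touch {M m : ℕ} (C : Finset (Fin M)) (Z : Finset (Fin m)) :
    ((Fintype.piFinset fun e : Fin M => if e ∈ C then
      (univ.filter fun f : Fin 3 ↪ Fin m => ∃ t, f t ∈ Z) else univ).card : ℝ)
      ≤ (3 * Z.card / m) ^ C.card * (Fintype.card (Fin 3 ↪ Fin m) : ℝ) ^ M :=
  card_pi_on_le C _ _ (by positivity) (card_touch Z)

/-- the expansion constant -/
noncomputable def bt (Δ : ℕ) : ℝ := (1 / (216 * Δ)) ^ 4 / 2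

theorem bt_pos {Δ : ℕ} (hΔ : 0 < Δ) : 0 < bt Δ := by
  have : (0 : ℝ) < Δ := by exact_mod_cast hΔ
  rw [bt]
  positivity

theorem expand_rand (Δ : ℕ) (hΔ : 0 < Δ) (η : ℝ) (hη : 0 < η) :
    ∃ m₀ : ℕ, ∀ m : ℕ, m₀ ≤ m →
      (((univ : Finset (Fin (Δ * m) → (Fin 3 ↪ Fin m))).filter fun a =>
        ¬ ∀ C : Finset (Fin (Δ * m)), (C.card : ℝ) ≤ bt Δ * m →
          C.card ≤ 2 * (bsum (fun e => vs (a e)) C).card).card : ℝ)
        ≤ η * (Fintype.card (Fin 3 ↪ Fin m) : ℝ) ^ (Δ * m) := by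
  classical
  have hΔ1 : (1 : ℝ) ≤ Δ := by exact_mod_cast hΔ
  have hΔ0 : (0 : ℝ) < Δ := by linarith
  set y : ℝ := min η 1 with hy
  have hy0 : 0 < y := lt_min hη one_pos
  have hy1 : y ≤ 1 := min_le_right _ _
  have hyη : y ≤ η := min_le_left _ _
  obtain ⟨K, hK⟩ := exists_pow_lt_of_lt_one hy0 (by norm_num : (1 / 2 : ℝ) < 1)
  set g : ℝ := y / (108 * Δ) with hg
  have hg0 : 0 < g := by positivity
  have hg1 : g ≤ 1 := by
    rw [hg, div_le_one (by positivity)]
    linarith
  obtain ⟨m₀, hm₀⟩ := exists_nat_ge (2 * (K : ℝ) / g ^ 4)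
  refine ⟨m₀ + 1, fun m hm => ?_⟩
  have hm0 : 0 < m := by omega
  have hm' : (0 : ℝ) < m := by exact_mod_cast hm0
  have hKm : 2 * (K : ℝ) ≤ g ^ 4 * m := by
    have h1 : (m₀ : ℝ) ≤ m := by exact_mod_cast (by omega : m₀ ≤ m)
    have h2 := hm₀.trans h1
    rw [div_le_iff₀ (by positivity)] at h2
    linarith
  -- one term
  have hterm : ∀ k : ℕ, 0 < k → (k : ℝ) ≤ bt Δ * m →
      ((Δ * m).choose k : ℝ) * (m.choose (7 * k / 4) : ℝ) * ((((7 * k / 4 : ℕ) : ℝ) / m) ^ 3) ^ k
        ≤ y * (1 / 2) ^ k := by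
    intro k hk hkb
    rcases Nat.lt_or_ge K k with h | h
    · have h1 := num_expand (Δ := Δ) (u := 7 * k / 4) (1 / (216 * Δ)) (by positivity) (by
        rw [div_le_one (by positivity)]
        linarith) hm0 hk rfl (by
          rw [bt] at hkb
          linarith)
      have h2 : (54 * (Δ : ℝ) * (1 / (216 * Δ))) = 1 / 2 * (1 / 2) := by
        field_simp
        norm_num
      rw [h2, mul_pow] at h1
      refine h1.trans (mul_le_mul_of_nonneg_right ?_ (by positivity))
      exact (pow_le_pow_of_le_one (by norm_num) (by norm_num) h.le).trans hK.le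
    · have hk' : (k : ℝ) ≤ K := by exact_mod_cast h
      have h1 := num_expand (Δ := Δ) (u := 7 * k / 4) g hg0 hg1 hm0 hk rfl (by linarith)
      have h2 : 54 * (Δ : ℝ) * g = y * (1 / 2) := by
        rw [hg]
        field_simp
        norm_num
      rw [h2, mul_pow] at h1
      refine h1.trans (mul_le_mul_of_nonneg_right ?_ (by positivity))
      calc y ^ k ≤ y ^ 1 := pow_le_pow_of_le_one hy0.le hy1 hk
        _ = y := pow_one y
  have hb1 : bt Δ ≤ 1 / 2 := by
    rw [bt]
    have : (1 / (216 * (Δ : ℝ))) ^ 4 ≤ 1 := by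
      apply pow_le_one₀ (by positivity)
      rw [div_le_one (by positivity)]
      linarith
    linarith
  -- the covering
  set N : ℝ := (Fintype.card (Fin 3 ↪ Fin m) : ℝ) ^ (Δ * m) with hN
  have hN0 : 0 ≤ N := by positivity
  have hcov : ((univ : Finset (Fin (Δ * m) → (Fin 3 ↪ Fin m))).filter fun a =>
        ¬ ∀ C : Finset (Fin (Δ * m)), (C.card : ℝ) ≤ bt Δ * m →
          C.card ≤ 2 * (bsum (fun e => vs (a e)) C).card) ⊆
      ((Icc 1 (Δ * m)).filter fun k : ℕ => (k : ℝ) ≤ bt Δ * m).biUnion fun k : ℕ =>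
        (powersetCard k univ).biUnion fun C =>
          (powersetCard (7 * k / 4) univ).biUnion fun U =>
            Fintype.piFinset fun e : Fin (Δ * m) => if e ∈ C then
              (univ.filter fun f : Fin 3 ↪ Fin m => ∀ t, f t ∈ U) else univ := by
    intro a ha
    have ha2 := (mem_filter.1 ha).2
    push Not at ha2
    obtain ⟨C, hC1, hC2⟩ := ha2
    have hk : 0 < C.card := by omega
    have hCM : C.card ≤ Δ * m := (card_le_univ C).trans (by rw [Fintype.card_fin])
    rw [mem_biUnion]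
    refine ⟨C.card, mem_filter.mpr ⟨mem_Icc.mpr ⟨hk, hCM⟩, hC1⟩, ?_⟩
    rw [mem_biUnion]
    refine ⟨C, mem_powersetCard.mpr ⟨subset_univ _, rfl⟩, ?_⟩
    rw [mem_biUnion]
    have h1 := two_card_le (fun e => vs (a e)) (fun e => card_vs _) C
    have h4 : (C.biUnion fun e => vs (a e)).card ≤ 7 * C.card / 4 := by omega
    have h5 : 2 * C.card ≤ m := by
      have : 2 * (C.card : ℝ) ≤ m := by nlinarith
      exact_mod_cast this
    have h6 : 7 * C.card / 4 ≤ (univ : Finset (Fin m)).card := by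
      rw [card_univ, Fintype.card_fin]
      omega
    obtain ⟨U, hU1, hU2, hU3⟩ := exists_subsuperset_card_eq
      (subset_univ (C.biUnion fun e => vs (a e))) h4 h6
    refine ⟨U, mem_powersetCard.mpr ⟨subset_univ _, hU3⟩, ?_⟩
    rw [Fintype.mem_piFinset]
    intro e
    split_ifs with he
    · rw [mem_filter]
      refine ⟨mem_univ _, fun t => hU1 ?_⟩
      rw [mem_biUnion]
      exact ⟨e, he, mem_vs.2 ⟨t, rfl⟩⟩
    · exact mem_univ _
  refine (Nat.cast_le.2 (card_le_card hcov)).trans ?_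
  refine (Nat.cast_le.mpr card_biUnion_le).trans ?_
  rw [Nat.cast_sum]
  have hsum : ∀ k ∈ (Icc 1 (Δ * m)).filter fun k : ℕ => (k : ℝ) ≤ bt Δ * m,
      (((powersetCard k univ).biUnion fun C =>
          (powersetCard (7 * k / 4) univ).biUnion fun U =>
            Fintype.piFinset fun e : Fin (Δ * m) => if e ∈ C then
              (univ.filter fun f : Fin 3 ↪ Fin m => ∀ t, f t ∈ U) else univ).card : ℝ)
        ≤ y * (1 / 2) ^ k * N := by
    intro k hk
    obtain ⟨hk1, hk2⟩ := mem_filter.mp hk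
    obtain ⟨hk3, hk4⟩ := mem_Icc.mp hk1
    refine le_trans ?_ (mul_le_mul_of_nonneg_right (hterm k hk3 hk2) hN0)
    refine (Nat.cast_le.mpr card_biUnion_le).trans ?_
    rw [Nat.cast_sum]
    have h2 : ∀ C ∈ powersetCard k (univ : Finset (Fin (Δ * m))),
        (((powersetCard (7 * k / 4) univ).biUnion fun U =>
            Fintype.piFinset fun e : Fin (Δ * m) => if e ∈ C then
              (univ.filter fun f : Fin 3 ↪ Fin m => ∀ t, f t ∈ U) else univ).card : ℝ)
          ≤ (m.choose (7 * k / 4) : ℝ) * (((((7 * k / 4 : ℕ) : ℝ) / m) ^ 3) ^ k * N) := by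
      intro C hC
      obtain ⟨-, hC2⟩ := mem_powersetCard.mp hC
      refine (Nat.cast_le.mpr card_biUnion_le).trans ?_
      rw [Nat.cast_sum]
      refine (sum_le_card_nsmul _ _ (((((7 * k / 4 : ℕ) : ℝ) / m) ^ 3) ^ k * N) ?_).trans ?_
      · intro U hU
        obtain ⟨-, hU2⟩ := mem_powersetCard.mp hU
        have := card_box_in C U
        rw [hC2, hU2] at this
        exact this
      · rw [card_powersetCard, card_univ, Fintype.card_fin, nsmul_eq_mul]
    refine (sum_le_card_nsmul _ _ _ h2).trans ?_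
    rw [card_powersetCard, card_univ, Fintype.card_fin, nsmul_eq_mul]
    refine le_of_eq ?_
    ring
  refine (sum_le_sum hsum).trans ?_
  rw [← sum_mul]
  refine mul_le_mul_of_nonneg_right ?_ hN0
  refine (sum_le_sum_of_subset_of_nonneg (filter_subset _ _) fun k _ _ => by positivity).trans ?_
  rw [← mul_sum]
  have h3 : ∀ n : ℕ, ∑ k ∈ Icc 1 n, (1 / 2 : ℝ) ^ k = 1 - (1 / 2) ^ n := by
    intro n
    induction n with
    | zero => simp
    | succ n ih =>
      rw [sum_Icc_succ_top (by omega), ih, pow_succ]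
      ring
  rw [h3]
  have : (0 : ℝ) < (1 / 2) ^ (Δ * m) := by positivity
  nlinarith

theorem touch_rand (Δ L z m : ℕ) (hL0 : 0 < L) (hL : 18 * Δ ≤ L) (hz : 0 < z) (hzm : z ≤ m)
    (hm : 12 * m ≤ z * 2 ^ L) :
    (((univ : Finset (Fin (Δ * m) → (Fin 3 ↪ Fin m))).filter fun a =>
        ¬ ∀ Z : Finset (Fin m), Z.card ≤ z →
          (univ.filter fun e => ∃ t, a e t ∈ Z).card ≤ L * z).card : ℝ)
      ≤ (1 / 4) ^ z * (Fintype.card (Fin 3 ↪ Fin m) : ℝ) ^ (Δ * m) := by
  classical
  have hm0 : 0 < m := by omega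
  have hm' : (0 : ℝ) < m := by exact_mod_cast hm0
  have hz' : (0 : ℝ) < z := by exact_mod_cast hz
  have hL' : (0 : ℝ) < L := by exact_mod_cast hL0
  set N : ℝ := (Fintype.card (Fin 3 ↪ Fin m) : ℝ) ^ (Δ * m) with hN
  have hN0 : 0 ≤ N := by positivity
  have hcov : ((univ : Finset (Fin (Δ * m) → (Fin 3 ↪ Fin m))).filter fun a =>
        ¬ ∀ Z : Finset (Fin m), Z.card ≤ z →
          (univ.filter fun e => ∃ t, a e t ∈ Z).card ≤ L * z) ⊆
      (powersetCard z univ).biUnion fun Z => (powersetCard (L * z) univ).biUnion fun C =>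
            Fintype.piFinset fun e : Fin (Δ * m) => if e ∈ C then
              (univ.filter fun f : Fin 3 ↪ Fin m => ∃ t, f t ∈ Z) else univ := by
    intro a ha
    have ha2 := (mem_filter.1 ha).2
    push Not at ha2
    obtain ⟨Z₀, hZ1, hZ2⟩ := ha2
    obtain ⟨Z, hZ3, -, hZ4⟩ := exists_subsuperset_card_eq (subset_univ Z₀) hZ1 (by
      rw [card_univ, Fintype.card_fin]
      exact hzm)
    have h1 : L * z ≤ (univ.filter fun e => ∃ t, a e t ∈ Z).card := by
      refine hZ2.le.trans (card_le_card fun e he => ?_)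
      rw [mem_filter] at he ⊢
      obtain ⟨-, t, ht⟩ := he
      exact ⟨mem_univ _, t, hZ3 ht⟩
    obtain ⟨C, hC1, hC2⟩ := exists_subset_card_eq h1
    rw [mem_biUnion]
    refine ⟨Z, mem_powersetCard.2 ⟨subset_univ _, hZ4⟩, ?_⟩
    rw [mem_biUnion]
    refine ⟨C, mem_powersetCard.2 ⟨subset_univ _, hC2⟩, ?_⟩
    rw [Fintype.mem_piFinset]
    intro e
    split_ifs with he
    · rw [mem_filter]
      exact ⟨mem_univ _, (mem_filter.1 (hC1 he)).2⟩
    · exact mem_univ _
  refine (Nat.cast_le.2 (card_le_card hcov)).trans ?_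
  refine (Nat.cast_le.mpr card_biUnion_le).trans ?_
  rw [Nat.cast_sum]
  have h2 : ∀ Z ∈ powersetCard z (univ : Finset (Fin m)),
      (((powersetCard (L * z) univ).biUnion fun C =>
            Fintype.piFinset fun e : Fin (Δ * m) => if e ∈ C then
              (univ.filter fun f : Fin 3 ↪ Fin m => ∃ t, f t ∈ Z) else univ).card : ℝ)
        ≤ ((Δ * m).choose (L * z) : ℝ) * ((3 * (z : ℝ) / m) ^ (L * z) * N) := by
    intro Z hZ
    obtain ⟨-, hZ2⟩ := mem_powersetCard.mp hZ
    refine (Nat.cast_le.mpr card_biUnion_le).trans ?_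
    rw [Nat.cast_sum]
    refine (sum_le_card_nsmul _ _ ((3 * (z : ℝ) / m) ^ (L * z) * N) ?_).trans ?_
    · intro C hC
      obtain ⟨-, hC2⟩ := mem_powersetCard.mp hC
      have := card_box_touch C Z
      rw [hC2, hZ2] at this
      exact this
    · rw [card_powersetCard, card_univ, Fintype.card_fin, nsmul_eq_mul]
  refine (sum_le_card_nsmul _ _ _ h2).trans ?_
  rw [card_powersetCard, card_univ, Fintype.card_fin, nsmul_eq_mul, ← mul_assoc, ← mul_assoc]
  refine mul_le_mul_of_nonneg_right ?_ hN0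
  have h3 := choose_le m z hz
  have h4 := choose_le (Δ * m) (L * z) (Nat.mul_pos hL0 hz)
  calc (m.choose z : ℝ) * ((Δ * m).choose (L * z) : ℝ) * (3 * (z : ℝ) / m) ^ (L * z)
      ≤ (3 * m / z) ^ z * (3 * ((Δ * m : ℕ) : ℝ) / ((L * z : ℕ) : ℝ)) ^ (L * z)
          * (3 * (z : ℝ) / m) ^ (L * z) := by
        refine mul_le_mul_of_nonneg_right ?_ (by positivity)
        exact mul_le_mul h3 h4 (Nat.cast_nonneg _) (by positivity)
    _ = (3 * m / z) ^ z * (9 * Δ / L) ^ (L * z) := by
        rw [mul_assoc, ← mul_pow]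
        congr 2
        push_cast
        field_simp
        ring
    _ ≤ (3 * m / z) ^ z * (1 / 2) ^ (L * z) := by
        refine mul_le_mul_of_nonneg_left ?_ (by positivity)
        refine pow_le_pow_left₀ (by positivity) ?_ _
        rw [div_le_div_iff₀ hL' (by norm_num)]
        have : (18 : ℝ) * Δ ≤ L := by exact_mod_cast hL
        linarith
    _ = (3 * m / z * (1 / 2) ^ L) ^ z := by
        rw [pow_mul, ← mul_pow]
    _ ≤ (1 / 4) ^ z := by
        refine pow_le_pow_left₀ (by positivity) ?_ _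
        have h5 : (12 : ℝ) * m ≤ z * 2 ^ L := by exact_mod_cast hm
        rw [one_div, inv_pow, ← div_eq_mul_inv, div_div, div_le_div_iff₀ (by positivity)
          (by norm_num)]
        linarith

end AV
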