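import Pool.Agent.BB.Cube
import Pool.Agent.AV.Rand

/-!
# AV: the pseudo-mass of a subcube without a bound of the degrees

If no set of `z` variables meets more than `L z` equations then each large set of variables contains
a large set of variables which are far from each other.
-/

set_option autoImplicit false

open scoped BigOperators

namespace AV

open Finset SDX SDX.h8 SDX.h71 BB

section
variable {ι κ : Type} [Fintype ι] [DecidableEq ι] [Fintype κ] [DecidableEq κ]

/-- larger sets -/
theorem touch_all {A : κ → Finset ι} {L z : ℕ} (hz : 0 < z)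
    (h : ∀ Z : Finset ι, Z.card ≤ z → (univ.filter fun e => ¬ Disjoint (A e) Z).card ≤ L * z)
    (k : ℕ) : ∀ Z : Finset ι, Z.card ≤ k →
      (univ.filter fun e => ¬ Disjoint (A e) Z).card ≤ L * (k + z) := by
  induction k using Nat.strong_induction_on with
  | _ k ih =>
    intro Z hZ
    rcases Nat.lt_or_ge z Z.card with h1 | h1
    · obtain ⟨Y, hY1, hY2⟩ := exists_subset_card_eq h1.le
      have h2 : (Z \ Y).card ≤ k - z := by
        rw [card_sdiff_of_subset hY1]
        omega
      have h3 := ih (k - z) (by omega) (Z \ Y) h2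
      have h4 := h Y hY2.le
      have h5 : (univ.filter fun e => ¬ Disjoint (A e) Z)
          ⊆ (univ.filter fun e => ¬ Disjoint (A e) (Z \ Y)) ∪
            (univ.filter fun e => ¬ Disjoint (A e) Y) := by
        intro e he
        rw [mem_filter] at he
        rw [mem_union, mem_filter, mem_filter]
        by_contra hcon
        push Not at hcon
        refine he.2 ?_
        have h6 : Z = (Z \ Y) ∪ Y := (sdiff_union_of_subset hY1).symm
        rw [h6, disjoint_union_right]
        exact ⟨hcon.1 (mem_univ _), hcon.2 (mem_univ _)⟩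
      refine (card_le_card h5).trans ((card_union_le _ _).trans ?_)
      have h6 : L * (k - z + z) + L * z = L * (k + z) := by
        have : k - z + z = k := by omega
        rw [this]
        ring
      omega
    · refine (h Z h1).trans (Nat.mul_le_mul_left _ (by omega))

/-- the neighbourhood of a set -/
theorem card_biUnion_nb {A : κ → Finset ι} {L z : ℕ} (hA : ∀ e, (A e).card = 3)
    (h : ∀ Z : Finset ι, (univ.filter fun e => ¬ Disjoint (A e) Z).card ≤ L * (Z.card + z))
    (Z : Finset ι) : (Z.biUnion (nb A)).card + z ≤ (3 * L + 2) * (Z.card + z) := by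
  have h1 : Z.biUnion (nb A) ⊆ Z ∪ (univ.filter fun e => ¬ Disjoint (A e) Z).biUnion A := by
    intro w hw
    rw [mem_biUnion] at hw
    obtain ⟨v, hv, hw⟩ := hw
    rw [mem_union]
    rcases mem_nb.1 hw with rfl | ⟨e, h1, h2⟩
    · exact Or.inl hv
    · right
      rw [mem_biUnion]
      exact ⟨e, mem_filter.2 ⟨mem_univ _, not_disjoint_iff.2 ⟨v, h1, hv⟩⟩, h2⟩
  have h2 := (card_le_card h1).trans (card_union_le _ _)
  have h3 := card_biUnion_le_card_mul (univ.filter fun e => ¬ Disjoint (A e) Z) A 3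
    fun e _ => (hA e).le
  have h4 := h Z
  nlinarith

theorem card_biUnion_ball {A : κ → Finset ι} {L z : ℕ} (hA : ∀ e, (A e).card = 3)
    (h : ∀ Z : Finset ι, (univ.filter fun e => ¬ Disjoint (A e) Z).card ≤ L * (Z.card + z))
    (Z : Finset ι) (k : ℕ) :
    (Z.biUnion (ball A k)).card + z ≤ (3 * L + 2) ^ k * (Z.card + z) := by
  induction k with
  | zero =>
    have : Z.biUnion (ball A 0) = Z := by
      ext v
      simp [ball]
    rw [this]
    simp
  | succ k ih =>
    have h1 : Z.biUnion (ball A (k + 1)) = (Z.biUnion (ball A k)).biUnion (nb A) := by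
      rw [biUnion_biUnion]
      rfl
    rw [h1, pow_succ, mul_comm ((3 * L + 2) ^ k), mul_assoc]
    exact (card_biUnion_nb hA h _).trans (Nat.mul_le_mul_left _ ih)

/-- each set of variables contains a large set of variables which are far from each other -/
theorem exists_sep2 (A : κ → Finset ι) (K z : ℕ)
    (hK : ∀ Z : Finset ι, (Z.biUnion (ball A 5)).card ≤ K * (Z.card + z)) (W : Finset ι) :
    ∃ W₂ ⊆ W, (∀ v ∈ W₂, ∀ w ∈ W₂, w ∈ ball A 5 v → w = v) ∧ W.card ≤ K * (W₂.card + z) := by
  classical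
  obtain ⟨W₂, hW₂, hmax⟩ := exists_max_image
    (W.powerset.filter fun U => ∀ v ∈ U, ∀ w ∈ U, w ∈ ball A 5 v → w = v) card
    ⟨∅, by simp⟩
  rw [mem_filter, mem_powerset] at hW₂
  refine ⟨W₂, hW₂.1, hW₂.2, ?_⟩
  have hsub : W ⊆ W₂.biUnion (ball A 5) := by
    intro w hw
    rw [mem_biUnion]
    by_cases hw2 : w ∈ W₂
    · exact ⟨w, hw2, self_mem_ball A 5 w⟩
    · by_contra hcon
      push Not at hcon
      have h1 := hmax (insert w W₂) (by
        rw [mem_filter, mem_powerset]
        refine ⟨insert_subset hw hW₂.1, fun v hv u hu huv => ?_⟩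
        rw [mem_insert] at hv hu
        rcases hv with rfl | hv <;> rcases hu with rfl | hu
        · rfl
        · exact absurd (ball_symm huv) (hcon u hu)
        · exact absurd huv (hcon v hv)
        · exact hW₂.2 v hv u hu huv)
      rw [card_insert_of_notMem hw2] at h1
      omega
  exact (card_le_card hsub).trans (hK W₂)

end

/-- **the mass of a subcube is exponentially small** -/
theorem mass_cube_le2 {m b d K s z : ℕ} {κ : Type} [Fintype κ] [DecidableEq κ]
    {A : κ → Finset (Fin m)} (hA : ∀ e, (A e).card = 3) (hexp : Expand A s) (hK0 : 0 < K)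
    (hK : ∀ Z : Finset (Fin m), (Z.biUnion (ball A 5)).card ≤ K * (Z.card + z))
    (D : (Fin m → Bool) → ℝ)
    (hDC : ∀ B, coef B D ≠ 0 → ∃ C : Finset κ, C.card ≤ s ∧ bsum A C = B)
    (hD1 : coef ∅ D = 1) (hpd : ∀ g ∈ Deg (Fin m) d, 0 ≤ ∑ y, D y * g y ^ 2)
    (S : Fin m → Fin b) (F : Finset (Fin m × Fin b)) (hF : F.card ≤ d) (hF0 : 4 * K * z ≤ F.card)
    (a : Fin m × Fin b → Bool) :
    2 ^ (F.card / (4 * K)) * ∑ x, ind F a x * D (rs S x) ≤ 2 ^ (m * b) := by
  classical
  set W : Finset (Fin m) := univ.filter fun j => (j, S j) ∈ F with hW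
  have hinj : Function.Injective (fun j : Fin m => (j, S j)) := fun i j h => by
    simpa using congrArg Prod.fst h
  have hWF : W.card ≤ F.card := by
    rw [← card_map ⟨fun j => (j, S j), hinj⟩]
    refine card_le_card fun f hf => ?_
    obtain ⟨j, hj, rfl⟩ := mem_map.1 hf
    exact (mem_filter.1 hj).2
  obtain ⟨W₂, hW₂, hsep, hcard⟩ := exists_sep2 A K z hK W
  have h1 := mass_cube D S F a
  rw [← hW] at h1
  have h2 := mass_mono D hpd hW₂ (hWF.trans hF) (rs S a)
  have h3 := mass_indep D hD1 W₂ (fun B hB hne => by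
    by_contra hcon
    obtain ⟨C, hC, hCB⟩ := hDC B hcon
    have hCne : C.Nonempty := by
      rw [nonempty_iff_ne_empty]
      rintro rfl
      rw [bsum_empty] at hCB
      rw [← hCB] at hne
      exact not_nonempty_empty hne
    exact no_odd hA hexp hsep hCne hC (by rw [hCB]; exact hB)) (rs S a)
  rw [Fintype.card_fin] at h3
  set E : ℝ := ∑ x, ind F a x * D (rs S x) with hE
  set G : ℝ := ∑ y, D y * ind W (rs S a) y with hG
  set G₂ : ℝ := ∑ y, D y * ind W₂ (rs S a) y with hG₂
  -- the exponents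
  have hk : F.card / (4 * K) + W.card ≤ F.card + W₂.card := by
    have h4 : F.card ≤ 4 * K * (F.card - W.card + W₂.card) := by
      have h5 : F.card - W.card ≤ K * (F.card - W.card) := Nat.le_mul_of_pos_left _ hK0
      have h6 : 4 * K * (F.card - W.card + W₂.card)
          = 4 * (K * (F.card - W.card)) + 4 * (K * W₂.card) := by ring
      have h7 : K * (W₂.card + z) = K * W₂.card + K * z := by ring
      have h8 : 4 * K * z = 4 * (K * z) := by ring
      rw [h6]
      omega
    have h5 : F.card / (4 * K) ≤ F.card - W.card + W₂.card := Nat.div_le_of_le_mul h4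
    omega
  have h4 : (2 : ℝ) ^ (F.card / (4 * K)) * 2 ^ W.card ≤ 2 ^ F.card * 2 ^ W₂.card := by
    rw [← pow_add, ← pow_add]
    exact pow_le_pow_right₀ (by norm_num) hk
  have hG₂0 : 0 ≤ G₂ := by
    have h5 : (0 : ℝ) < 2 ^ W₂.card := by positivity
    have h6 : (0 : ℝ) < 2 ^ m := by positivity
    by_contra hcon
    push Not at hcon
    have := mul_neg_of_pos_of_neg h5 hcon
    linarith
  have h5 : (2 : ℝ) ^ F.card * 2 ^ m * (2 ^ (F.card / (4 * K)) * E)
      ≤ 2 ^ F.card * 2 ^ m * 2 ^ (m * b) := by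
    calc (2 : ℝ) ^ F.card * 2 ^ m * (2 ^ (F.card / (4 * K)) * E)
        = 2 ^ (F.card / (4 * K)) * (2 ^ F.card * 2 ^ m * E) := by ring
      _ = 2 ^ (F.card / (4 * K)) * (2 ^ W.card * 2 ^ (m * b) * G) := by rw [h1]
      _ ≤ 2 ^ (F.card / (4 * K)) * (2 ^ W.card * 2 ^ (m * b) * G₂) := by gcongr
      _ = (2 ^ (F.card / (4 * K)) * 2 ^ W.card) * (2 ^ (m * b) * G₂) := by ring
      _ ≤ (2 ^ F.card * 2 ^ W₂.card) * (2 ^ (m * b) * G₂) := by gcongr
      _ = 2 ^ F.card * 2 ^ (m * b) * (2 ^ W₂.card * G₂) := by ring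
      _ = 2 ^ F.card * 2 ^ m * 2 ^ (m * b) := by rw [h3]; ring
  exact le_of_mul_le_mul_left h5 (by positivity)

/-- the balls of a system of triples -/
theorem ball_of_touch {M m L z : ℕ} (a : Fin M → (Fin 3 ↪ Fin m)) (hz : 0 < z)
    (h : ∀ Z : Finset (Fin m), Z.card ≤ z → (univ.filter fun e => ∃ t, a e t ∈ Z).card ≤ L * z)
    (Z : Finset (Fin m)) :
    (Z.biUnion (ball (fun e => vs (a e)) 5)).card ≤ (3 * L + 2) ^ 5 * (Z.card + z) := by
  have h1 : ∀ Z : Finset (Fin m), (univ.filter fun e => ¬ Disjoint (vs (a e)) Z)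
      = univ.filter fun e => ∃ t, a e t ∈ Z := by
    intro Z
    ext e
    rw [mem_filter, mem_filter, not_disjoint_iff]
    refine and_congr_right fun _ => ⟨?_, ?_⟩
    · rintro ⟨v, hv, hvZ⟩
      obtain ⟨t, rfl⟩ := mem_vs.1 hv
      exact ⟨t, hvZ⟩
    · rintro ⟨t, ht⟩
      exact ⟨a e t, mem_vs.2 ⟨t, rfl⟩, ht⟩
  have h2 : ∀ Z : Finset (Fin m),
      (univ.filter fun e => ¬ Disjoint (vs (a e)) Z).card ≤ L * (Z.card + z) := fun Z =>
    touch_all hz (fun Z hZ => by rw [h1]; exact h Z hZ) Z.card Z le_rfl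
  have := card_biUnion_ball (A := fun e => vs (a e)) (fun e => card_vs _) h2 Z 5
  omega

end AV
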