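import Mathlib

/-!
# AV: the value of a random 3-CNF formula
-/

set_option autoImplicit false

open scoped BigOperators

namespace AV

open Finset Filter Topology

/-- Chernoff bound for the number of hits of a set of density `1 / 8` -/
theorem chernoff {X : Type} [Fintype X] [DecidableEq X] (U : Finset X)
    (hU : 8 * U.card = Fintype.card X) (M : ℕ) (ε : ℝ) (hε0 : 0 ≤ ε) (hε : ε ≤ 1 / 4) :
    (((univ : Finset (Fin M → X)).filter fun φ =>
        (((univ : Finset (Fin M)).filter fun e => φ e ∈ U).card : ℝ) ≤ (1 / 8 - ε) * M).card : ℝ)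
      ≤ Real.exp (-(2 * ε ^ 2 * M)) * (Fintype.card X : ℝ) ^ M := by
  set θ : ℝ := 4 * ε with hθ
  have hθ0 : 0 ≤ θ := by positivity
  let w : X → ℝ := fun x => if x ∈ U then Real.exp (-θ) else 1
  have hw : ∀ x, 0 ≤ w x := fun x => by
    simp only [w]
    split_ifs <;> positivity
  have h1 : ∑ φ : Fin M → X, ∏ e, w (φ e) = (∑ x, w x) ^ M := by
    have h2 := Finset.prod_univ_sum (fun _ : Fin M => (Finset.univ : Finset X)) (fun _ x => w x)
    rw [Fintype.piFinset_univ] at h2
    rw [← h2, Finset.prod_const, Finset.card_univ, Fintype.card_fin]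
  have h2 : ∀ φ : Fin M → X, ∏ e, w (φ e)
      = Real.exp (-(θ * ((univ : Finset (Fin M)).filter fun e => φ e ∈ U).card)) := by
    intro φ
    simp only [w]
    rw [Finset.prod_ite, Finset.prod_const, Finset.prod_const_one, mul_one, ← Real.exp_nat_mul]
    congr 1
    ring
  have h3 : ∑ x, w x ≤ Fintype.card X * Real.exp (-((θ - θ ^ 2) / 8)) := by
    have hX : (Fintype.card X : ℝ) = 8 * U.card := by rw [← hU]; push_cast; rfl
    have h4 : ∑ x, w x = Fintype.card X * (1 - (1 - Real.exp (-θ)) / 8) := by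
      simp only [w]
      rw [Finset.sum_ite, Finset.sum_const, Finset.sum_const, nsmul_eq_mul, nsmul_eq_mul]
      have h5 : (univ.filter fun x => x ∈ U) = U := by
        ext x
        simp
      have h6 : (univ.filter fun x => ¬ x ∈ U).card = Fintype.card X - U.card := by
        have h7 : (univ.filter fun x => ¬ x ∈ U) = Uᶜ := by
          ext x
          simp
        rw [h7, card_compl]
      rw [h5, h6, Nat.cast_sub (card_le_univ U), hX]
      ring
    rw [h4]
    refine mul_le_mul_of_nonneg_left ?_ (Nat.cast_nonneg _)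
    have h5 : Real.exp (-θ) ≤ 1 - θ + θ ^ 2 := by
      have h6 := Real.abs_exp_sub_one_sub_id_le (x := -θ) (by
        rw [abs_neg, abs_of_nonneg hθ0]
        linarith)
      have h7 := (abs_le.1 h6).2
      nlinarith
    have h6 := Real.add_one_le_exp (-((θ - θ ^ 2) / 8))
    linarith
  -- Markov
  have h4 : ((((univ : Finset (Fin M → X)).filter fun φ =>
        (((univ : Finset (Fin M)).filter fun e => φ e ∈ U).card : ℝ) ≤ (1 / 8 - ε) * M).card : ℝ))
        * Real.exp (-(θ * ((1 / 8 - ε) * M)))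
      ≤ (Fintype.card X * Real.exp (-((θ - θ ^ 2) / 8))) ^ M := by
    calc _ = ∑ _φ ∈ ((univ : Finset (Fin M → X)).filter fun φ =>
          (((univ : Finset (Fin M)).filter fun e => φ e ∈ U).card : ℝ) ≤ (1 / 8 - ε) * M),
            Real.exp (-(θ * ((1 / 8 - ε) * M))) := by
          rw [Finset.sum_const, nsmul_eq_mul]
      _ ≤ ∑ φ ∈ ((univ : Finset (Fin M → X)).filter fun φ =>
          (((univ : Finset (Fin M)).filter fun e => φ e ∈ U).card : ℝ) ≤ (1 / 8 - ε) * M),
            ∏ e, w (φ e) := by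
          refine Finset.sum_le_sum fun φ hφ => ?_
          rw [h2]
          exact Real.exp_le_exp.2 (neg_le_neg (mul_le_mul_of_nonneg_left
            (Finset.mem_filter.1 hφ).2 hθ0))
      _ ≤ ∑ φ : Fin M → X, ∏ e, w (φ e) :=
          Finset.sum_le_univ_sum_of_nonneg fun φ => Finset.prod_nonneg fun e _ => hw _
      _ ≤ _ := by
          rw [h1]
          exact pow_le_pow_left₀ (Finset.sum_nonneg fun x _ => hw x) h3 M
  rw [mul_pow, ← Real.exp_nat_mul] at h4
  rw [← le_div_iff₀ (Real.exp_pos _)] at h4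
  refine h4.trans (le_of_eq ?_)
  rw [mul_div_assoc, ← Real.exp_sub, mul_comm]
  congr 2
  rw [hθ]
  ring

/-- the clauses (variables, signs) which are false at `y` -/
noncomputable def fl {m : ℕ} (y : Fin m → Bool) : Finset ((Fin 3 ↪ Fin m) × (Fin 3 → Bool)) :=
  univ.filter fun x => ∀ i, y (x.1 i) ≠ x.2 i

theorem card_fl {m : ℕ} (y : Fin m → Bool) :
    8 * (fl y).card = Fintype.card ((Fin 3 ↪ Fin m) × (Fin 3 → Bool)) := by
  have h1 : (fl y).card = Fintype.card (Fin 3 ↪ Fin m) := by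
    rw [← Finset.card_univ]
    refine Finset.card_bij (fun x _ => x.1) (fun _ _ => mem_univ _) ?_ ?_
    · rintro ⟨f, s⟩ hx ⟨f', s'⟩ hx' h
      simp only at h
      subst h
      rw [fl, mem_filter] at hx hx'
      congr 1
      funext i
      have h1 := hx.2 i
      have h2 := hx'.2 i
      simp only at h1 h2
      cases hs : s i <;> cases hs' : s' i <;> cases hy : y (f i) <;> simp_all
    · intro f _
      refine ⟨(f, fun i => ! y (f i)), ?_, rfl⟩
      rw [fl, mem_filter]
      refine ⟨mem_univ _, fun i => ?_⟩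
      simp only
      cases y (f i) <;> simp
  rw [h1, Fintype.card_prod, Fintype.card_fun, Fintype.card_bool, Fintype.card_fin]
  ring

/-- almost all formulas with many clauses have a value of at most `7 / 8 + ε` -/
theorem value_rand (Δ : ℕ) (ε η : ℝ) (hε : 0 < ε) (hη : 0 < η) (h : 1 ≤ 2 * ε ^ 2 * Δ) :
    ∃ m₀ : ℕ, ∀ m : ℕ, m₀ ≤ m →
      (((univ : Finset (Fin (Δ * m) → (Fin 3 ↪ Fin m) × (Fin 3 → Bool))).filter fun φ =>
        ∃ y : Fin m → Bool, (((univ : Finset (Fin (Δ * m))).filter fun e => φ e ∈ fl y).card : ℝ)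
          < (1 / 8 - ε) * (Δ * m : ℕ)).card : ℝ)
      ≤ η * (Fintype.card ((Fin 3 ↪ Fin m) × (Fin 3 → Bool)) : ℝ) ^ (Δ * m) := by
  classical
  rcases lt_or_ge (1 / 8) ε with h8 | h8
  · refine ⟨0, fun m _ => ?_⟩
    have : ((univ : Finset (Fin (Δ * m) → (Fin 3 ↪ Fin m) × (Fin 3 → Bool))).filter fun φ =>
        ∃ y : Fin m → Bool, (((univ : Finset (Fin (Δ * m))).filter fun e => φ e ∈ fl y).card : ℝ)
          < (1 / 8 - ε) * (Δ * m : ℕ)) = ∅ := by
      rw [filter_eq_empty_iff]
      rintro φ _ ⟨y, hy⟩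
      have h1 : (0 : ℝ) ≤ (Δ * m : ℕ) := Nat.cast_nonneg _
      have h2 : (0 : ℝ) ≤ (((univ : Finset (Fin (Δ * m))).filter fun e => φ e ∈ fl y).card : ℝ) :=
        Nat.cast_nonneg _
      nlinarith
    rw [this]
    simp only [card_empty, Nat.cast_zero]
    positivity
  have hlog : Real.log 2 < 1 := by
    have := Real.log_two_lt_d9
    linarith
  have hlim : Tendsto (fun m : ℕ => Real.exp (-((1 - Real.log 2) * (m : ℝ)))) atTop (𝓝 0) :=
    Real.tendsto_exp_neg_atTop_nhds_zero.comp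
      ((tendsto_natCast_atTop_atTop (R := ℝ)).const_mul_atTop (by linarith))
  obtain ⟨m₀, hm₀⟩ := (hlim.eventually (gt_mem_nhds hη)).exists_forall_of_atTop
  refine ⟨m₀, fun m hm => ?_⟩
  have h1 : Real.exp (-((1 - Real.log 2) * (m : ℝ))) < η := hm₀ m hm
  set N : ℝ := (Fintype.card ((Fin 3 ↪ Fin m) × (Fin 3 → Bool)) : ℝ) ^ (Δ * m) with hN
  have hN0 : 0 ≤ N := by positivity
  have hcov : ((univ : Finset (Fin (Δ * m) → (Fin 3 ↪ Fin m) × (Fin 3 → Bool))).filter fun φ =>
        ∃ y : Fin m → Bool, (((univ : Finset (Fin (Δ * m))).filter fun e => φ e ∈ fl y).card : ℝ)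
          < (1 / 8 - ε) * (Δ * m : ℕ)) ⊆ (univ : Finset (Fin m → Bool)).biUnion fun y =>
        (univ : Finset (Fin (Δ * m) → (Fin 3 ↪ Fin m) × (Fin 3 → Bool))).filter fun φ =>
        (((univ : Finset (Fin (Δ * m))).filter fun e => φ e ∈ fl y).card : ℝ)
          ≤ (1 / 8 - ε) * (Δ * m : ℕ) := by
    intro φ hφ
    obtain ⟨y, hy⟩ := (mem_filter.1 hφ).2
    rw [mem_biUnion]
    exact ⟨y, mem_univ _, mem_filter.2 ⟨mem_univ _, hy.le⟩⟩
  refine (Nat.cast_le.2 (card_le_card hcov)).trans ?_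
  refine (Nat.cast_le.mpr card_biUnion_le).trans ?_
  rw [Nat.cast_sum]
  refine (sum_le_sum fun y _ => chernoff (fl y) (card_fl y) (Δ * m) ε hε.le (by linarith)).trans ?_
  rw [sum_const, card_univ, Fintype.card_fun, Fintype.card_bool, Fintype.card_fin, nsmul_eq_mul,
    ← mul_assoc]
  refine mul_le_mul_of_nonneg_right (le_trans ?_ h1.le) hN0
  push_cast
  have h2 : (2 : ℝ) ^ m = Real.exp (m * Real.log 2) := by
    rw [Real.exp_nat_mul, Real.exp_log (by norm_num)]
  rw [h2, ← Real.exp_add]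
  apply Real.exp_le_exp.2
  have h3 : (0 : ℝ) ≤ m := Nat.cast_nonneg m
  have h4 := mul_le_mul_of_nonneg_right h h3
  nlinarith

end AV
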