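import Pool.Agent.BB.Core6
import Pool.Agent.AV.Rand2
import Pool.Agent.AV.Sep

/-!
# AV: clauses as polynomials

The equation of a clause says that an odd number of its literals is true; a pseudo-density which
satisfies the equation of a clause in low degree satisfies the clause in low degree.
-/

set_option autoImplicit false

open scoped BigOperators Matrix Kronecker

namespace AV

open LIFT SDX BB LIFT.h93d

section
variable {m : ℕ}

/-- the sign of the equation of a clause -/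
def sx (s : Fin 3 → Bool) : Bool := xor (s 0) (xor (s 1) (s 2))

theorem sg_sx (s : Fin 3 → Bool) : sg (sx s) = sg (s 0) * sg (s 1) * sg (s 2) := by
  rw [sx]
  cases s 0 <;> cases s 1 <;> cases s 2 <;> norm_num [sg]

theorem chr_vs (f : Fin 3 ↪ Fin m) (y : Fin m → Bool) :
    chr (vs f) y = sg (y (f 0)) * sg (y (f 1)) * sg (y (f 2)) := by
  rw [chr, vs, Finset.prod_map, Fin.prod_univ_three]

/-- the difference of the equation -/
noncomputable def uu (f : Fin 3 ↪ Fin m) (s : Fin 3 → Bool) (y : Fin m → Bool) : ℝ :=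
  1 - sg (sx s) * chr (vs f) y

/-- one, if the clause is false, and zero otherwise -/
noncomputable def vv (f : Fin 3 ↪ Fin m) (s : Fin 3 → Bool) (y : Fin m → Bool) : ℝ :=
  uu f s y * (1 - ∑ k, sg (s k) * chr {f k} y) / 8

open Classical in
theorem vv_eq (f : Fin 3 ↪ Fin m) (s : Fin 3 → Bool) (y : Fin m → Bool) :
    vv f s y = if ∀ i, y (f i) ≠ s i then 1 else 0 := by
  rw [vv, uu, sg_sx, chr_vs, Fin.sum_univ_three]
  simp only [chr, Finset.prod_singleton, Fin.forall_fin_succ]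
  cases h0 : y (f 0) <;> cases h1 : y (f 1) <;> cases h2 : y (f 2) <;>
    cases h3 : s 0 <;> cases h4 : s 1 <;> cases h5 : s 2 <;>
    simp [sg, h0, h1, h2, h3, h4, h5] <;> norm_num

theorem coef_mul_chr (D : (Fin m → Bool) → ℝ) (A B : Finset (Fin m)) :
    coef B (fun y => D y * chr A y) = coef (symmDiff B A) D := by
  simp only [coef, ← chr_mul']
  congr 1
  exact Finset.sum_congr rfl fun y _ => by ring

theorem coef_sub' (g h : (Fin m → Bool) → ℝ) (B : Finset (Fin m)) :
    coef B (fun y => g y - h y) = coef B g - coef B h := by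
  simp only [coef, sub_mul, Finset.sum_sub_distrib, sub_div]

theorem coef_smul' (c : ℝ) (g : (Fin m → Bool) → ℝ) (B : Finset (Fin m)) :
    coef B (fun y => c * g y) = c * coef B g := by
  simp only [coef, mul_assoc, ← Finset.mul_sum, mul_div_assoc]

theorem coef_sum' {κ : Type} (T : Finset κ) (g : κ → (Fin m → Bool) → ℝ) (B : Finset (Fin m)) :
    coef B (fun y => ∑ e ∈ T, g e y) = ∑ e ∈ T, coef B (g e) := by
  simp only [coef, Finset.sum_mul, ← Finset.sum_div]
  rw [Finset.sum_comm]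

theorem coef_uu (D : (Fin m → Bool) → ℝ) (f : Fin 3 ↪ Fin m) (s : Fin 3 → Bool)
    (B : Finset (Fin m)) :
    coef B (fun y => D y * uu f s y) = coef B D - sg (sx s) * coef (symmDiff B (vs f)) D := by
  rw [← coef_mul_chr, ← coef_smul', ← coef_sub']
  congr 1
  funext y
  rw [uu]
  ring

theorem coef_vv (D : (Fin m → Bool) → ℝ) (f : Fin 3 ↪ Fin m) (s : Fin 3 → Bool)
    (B : Finset (Fin m)) :
    coef B (fun y => D y * vv f s y) = 1 / 8 * (coef B (fun y => D y * uu f s y)
      - ∑ k, sg (s k) * coef (symmDiff B {f k}) (fun y => D y * uu f s y)) := by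
  have h1 : ∀ k, sg (s k) * coef (symmDiff B {f k}) (fun y => D y * uu f s y)
      = coef B (fun y => sg (s k) * ((D y * uu f s y) * chr {f k} y)) := by
    intro k
    rw [coef_smul', coef_mul_chr]
  rw [Finset.sum_congr rfl fun k _ => h1 k, ← coef_sum', ← coef_sub', ← coef_smul']
  congr 1
  funext y
  rw [vv]
  have h2 : ∑ k, sg (s k) * ((D y * uu f s y) * chr {f k} y)
      = (D y * uu f s y) * ∑ k, sg (s k) * chr {f k} y := by
    rw [Finset.mul_sum]
    exact Finset.sum_congr rfl fun k _ => by ring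
  rw [h2]
  ring

theorem abs_sg (a : Bool) : |sg a| = 1 := by
  cases a <;> norm_num [sg]

theorem coef_vv_le (D : (Fin m → Bool) → ℝ) (hD : ∀ B, |coef B D| ≤ 1) (f : Fin 3 ↪ Fin m)
    (s : Fin 3 → Bool) (B : Finset (Fin m)) : |coef B (fun y => D y * vv f s y)| ≤ 1 := by
  have h1 : ∀ B, |coef B (fun y => D y * uu f s y)| ≤ 2 := by
    intro B
    rw [coef_uu]
    refine (abs_sub _ _).trans ?_
    rw [abs_mul, abs_sg, one_mul]
    have h2 := hD B
    have h3 := hD (symmDiff B (vs f))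
    linarith
  rw [coef_vv, abs_mul, abs_of_pos (by norm_num : (0 : ℝ) < 1 / 8)]
  have h2 : |∑ k, sg (s k) * coef (symmDiff B {f k}) (fun y => D y * uu f s y)| ≤ 6 := by
    refine (Finset.abs_sum_le_sum_abs _ _).trans ?_
    refine (Finset.sum_le_sum (g := fun _ => (2 : ℝ)) fun k _ => ?_).trans ?_
    · rw [abs_mul, abs_sg, one_mul]
      exact h1 _
    · rw [Finset.sum_const, Finset.card_univ, Fintype.card_fin]
      norm_num
  have h3 := (abs_sub (coef B (fun y => D y * uu f s y))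
    (∑ k, sg (s k) * coef (symmDiff B {f k}) (fun y => D y * uu f s y)))
  have h4 := h1 B
  linarith

theorem coef_vv_low {w : ℕ} (D : (Fin m → Bool) → ℝ) (f : Fin 3 ↪ Fin m) (s : Fin 3 → Bool)
    (hD : ∀ B : Finset (Fin m), B.card + 3 ≤ w →
      coef (symmDiff B (vs f)) D = sg (sx s) * coef B D)
    (B : Finset (Fin m)) (hB : B.card + 4 ≤ w) : coef B (fun y => D y * vv f s y) = 0 := by
  have h1 : ∀ B : Finset (Fin m), B.card + 3 ≤ w → coef B (fun y => D y * uu f s y) = 0 := by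
    intro B hB
    rw [coef_uu, hD B hB, ← mul_assoc, LIFT.h93d.sg_mul_self, one_mul, sub_self]
  rw [coef_vv, h1 B (by omega), Finset.sum_eq_zero fun k _ => ?_]
  · norm_num
  · rw [h1 _ ?_, mul_zero]
    have h2 : (symmDiff B {f k}).card ≤ B.card + 1 := by
      refine (Finset.card_le_card (t := B ∪ {f k}) ?_).trans ((Finset.card_union_le _ _).trans ?_)
      · intro v hv
        rw [Finset.mem_symmDiff] at hv
        rw [Finset.mem_union]
        rcases hv with h | h
        · exact Or.inl h.1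
        · exact Or.inr h.1
      · rw [Finset.card_singleton]
    omega

variable {M : ℕ}

/-- the fraction of the false clauses -/
noncomputable def gg (a : Fin M → (Fin 3 ↪ Fin m)) (s : Fin M → Fin 3 → Bool) (y : Fin m → Bool) :
    ℝ := 1 / M * ∑ e, vv (a e) (s e) y

open Classical in
theorem gg_eq (a : Fin M → (Fin 3 ↪ Fin m)) (s : Fin M → Fin 3 → Bool) (y : Fin m → Bool) :
    gg a s y = (((Finset.univ : Finset (Fin M)).filter fun e =>
      ∀ i, y (a e i) ≠ s e i).card : ℝ) / M := by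
  rw [gg, ← Finset.sum_boole, Finset.sum_congr rfl fun e _ => vv_eq (a e) (s e) y]
  rw [one_div, div_eq_inv_mul]

theorem gg_le_one (hM : 0 < M) (a : Fin M → (Fin 3 ↪ Fin m)) (s : Fin M → Fin 3 → Bool)
    (y : Fin m → Bool) : gg a s y ≤ 1 := by
  classical
  have hM' : (0 : ℝ) < M := by exact_mod_cast hM
  rw [gg_eq, div_le_one hM']
  have h1 := Finset.card_le_univ ((Finset.univ : Finset (Fin M)).filter fun e =>
      ∀ i, y (a e i) ≠ s e i)
  rw [Fintype.card_fin] at h1
  exact_mod_cast h1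

theorem coef_gg (D : (Fin m → Bool) → ℝ) (a : Fin M → (Fin 3 ↪ Fin m))
    (s : Fin M → Fin 3 → Bool) (B : Finset (Fin m)) :
    coef B (fun y => D y * gg a s y) = 1 / M * ∑ e, coef B (fun y => D y * vv (a e) (s e) y) := by
  rw [← coef_sum', ← coef_smul']
  congr 1
  funext y
  rw [gg, ← Finset.mul_sum]
  ring

theorem coef_gg_le (hM : 0 < M) (D : (Fin m → Bool) → ℝ) (hD : ∀ B, |coef B D| ≤ 1)
    (a : Fin M → (Fin 3 ↪ Fin m)) (s : Fin M → Fin 3 → Bool) (B : Finset (Fin m)) :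
    |coef B (fun y => D y * gg a s y)| ≤ 1 := by
  have hM' : (0 : ℝ) < M := by exact_mod_cast hM
  rw [coef_gg, abs_mul, abs_of_pos (by positivity)]
  have h1 : |∑ e, coef B (fun y => D y * vv (a e) (s e) y)| ≤ M := by
    refine (Finset.abs_sum_le_sum_abs _ _).trans ?_
    refine (Finset.sum_le_sum (g := fun _ => (1 : ℝ)) fun e _ => coef_vv_le D hD _ _ B).trans ?_
    simp
  calc 1 / (M : ℝ) * |∑ e, coef B (fun y => D y * vv (a e) (s e) y)| ≤ 1 / (M : ℝ) * M :=
        mul_le_mul_of_nonneg_left h1 (by positivity)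
    _ = 1 := by field_simp

theorem coef_gg_low {w : ℕ} (D : (Fin m → Bool) → ℝ) (a : Fin M → (Fin 3 ↪ Fin m))
    (s : Fin M → Fin 3 → Bool)
    (hD : ∀ e, ∀ B : Finset (Fin m), B.card + 3 ≤ w →
      coef (symmDiff B (vs (a e))) D = sg (sx (s e)) * coef B D)
    (B : Finset (Fin m)) (hB : B.card + 4 ≤ w) : coef B (fun y => D y * gg a s y) = 0 := by
  rw [coef_gg, Finset.sum_eq_zero fun e _ => coef_vv_low D (a e) (s e) (hD e) B hB, mul_zero]

end

/-- the size of the sets of variables which meet few clauses -/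
noncomputable def zz (L m : ℕ) : ℕ := ⌊24 * (m : ℝ) / 2 ^ L⌋₊

theorem zz_spec {L m : ℕ} (hL : 5 ≤ L) (hm : (2 : ℝ) ^ L ≤ 24 * m) :
    0 < zz L m ∧ zz L m ≤ m ∧ 12 * m ≤ zz L m * 2 ^ L ∧
      (zz L m : ℝ) ≤ 24 * (m : ℝ) / 2 ^ L ∧ 12 * (m : ℝ) / 2 ^ L ≤ zz L m := by
  have h2 : (0 : ℝ) < 2 ^ L := by positivity
  have h1 : (zz L m : ℝ) ≤ 24 * (m : ℝ) / 2 ^ L := Nat.floor_le (by positivity)
  have h3 : 24 * (m : ℝ) / 2 ^ L < zz L m + 1 := Nat.lt_floor_add_one _
  have h4 : 1 ≤ 24 * (m : ℝ) / 2 ^ L := by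
    rw [le_div_iff₀ h2, one_mul]
    exact hm
  have h5 : 1 ≤ zz L m := Nat.le_floor (by simpa using h4)
  have h6 : (1 : ℝ) ≤ zz L m := by exact_mod_cast h5
  have h7 : 12 * (m : ℝ) / 2 ^ L ≤ zz L m := by
    have : 24 * (m : ℝ) / 2 ^ L = 2 * (12 * (m : ℝ) / 2 ^ L) := by ring
    linarith
  refine ⟨h5, ?_, ?_, h1, h7⟩
  · have h8 : (32 : ℝ) ≤ 2 ^ L := by
      calc (32 : ℝ) = 2 ^ 5 := by norm_num
        _ ≤ 2 ^ L := pow_le_pow_right₀ (by norm_num) hL
    have h9 : 24 * (m : ℝ) / 2 ^ L ≤ m := by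
      rw [div_le_iff₀ h2]
      have : (0 : ℝ) ≤ m := Nat.cast_nonneg _
      nlinarith
    exact_mod_cast h1.trans h9
  · rw [div_le_iff₀ h2] at h7
    exact_mod_cast h7

end AV
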